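import Pool.Agent.N975.ChE

/-!
# The quadratic character of the even discriminants at the odd primes
-/

set_option autoImplicit false

open Finset

namespace Pool.Agent.N975.ChE

open Pool.Agent.N969.P15

theorem jac_prod (u : ℤ) (S : Finset ℕ) (h : ∀ p ∈ S, p ≠ 0) :
    jacobiSym u (∏ p ∈ S, p) = ∏ p ∈ S, jacobiSym u p := by
  classical
  induction S using Finset.induction_on with
  | empty => simp
  | insert a S ha ih =>
    rw [Finset.prod_insert ha, Finset.prod_insert ha]
    have h1 : a ≠ 0 := h a (Finset.mem_insert_self _ _)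
    have h2 : ∏ p ∈ S, p ≠ 0 :=
      Finset.prod_ne_zero_iff.2 fun p hp => h p (Finset.mem_insert_of_mem hp)
    rw [jacobiSym.mul_right' _ h1 h2, ih fun p hp => h p (Finset.mem_insert_of_mem hp)]

theorem jac_sqfree (u : ℤ) {k : ℕ} (hk : Squarefree k) :
    ∏ p ∈ k.primeFactors, jacobiSym u p = jacobiSym u k := by
  rw [← jac_prod u _ fun p hp => (Nat.prime_of_mem_primeFactors hp).ne_zero,
    Nat.prod_primeFactors_of_squarefree hk]

/-- the odd part -/
theorem ev_odd {n : ℕ} (hE : Ev n) : ∃ k : ℕ, Squarefree k ∧ k % 2 = 1 ∧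
    (n = 4 * k ∧ k % 4 = 1 ∨ n = 8 * k) ∧ n.primeFactors.erase 2 = k.primeFactors := by
  have hpf : ∀ (e k : ℕ), k % 2 = 1 → 0 < e → (2 ^ e * k).primeFactors.erase 2 = k.primeFactors := by
    intro e k hk he
    have hk0 : k ≠ 0 := by rintro rfl; omega
    rw [Nat.primeFactors_mul (by positivity) hk0, Nat.primeFactors_prime_pow he.ne' Nat.prime_two]
    ext p
    simp only [Finset.mem_erase, Finset.mem_union, Finset.mem_singleton]
    constructor
    · rintro ⟨h1, h2 | h2⟩
      · exact absurd h2 h1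
      · exact h2
    · intro h
      refine ⟨?_, Or.inr h⟩
      rintro rfl
      have := Nat.dvd_of_mem_primeFactors h
      omega
  obtain ⟨m, rfl, hsq, h4⟩ := hE
  rcases h4 with h4 | h4
  · exact ⟨m, hsq, by omega, Or.inl ⟨rfl, h4⟩, hpf 2 m (by omega) (by norm_num)⟩
  · obtain ⟨k, rfl⟩ : 2 ∣ m := by omega
    refine ⟨k, hsq.squarefree_of_dvd (Dvd.intro_left _ rfl), by omega, Or.inr (by ring), ?_⟩
    have : 4 * (2 * k) = 2 ^ 3 * k := by ring
    rw [this]
    exact hpf 3 k (by omega) (by norm_num)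

theorem chE_prime {n : ℕ} (hE : Ev n) {p : ℕ} (hp : p.Prime) (hp2 : p ≠ 2) :
    chE n p = jacobiSym (-((n / 4 : ℕ) : ℤ)) p := by
  have hpo : Odd p := hp.odd_of_ne_two hp2
  have hpo' := Nat.odd_iff.1 hpo
  obtain ⟨k, hsq, hk, hcase, hpf⟩ := ev_odd hE
  have hko : Odd k := Nat.odd_iff.2 hk
  unfold chE
  rw [hpf, jac_sqfree _ hsq, c2_eq]
  rcases hcase with ⟨rfl, h1⟩ | rfl
  · rw [if_pos (by omega)]
    have e1 : 4 * k / 4 = k := by omega
    rw [e1, show (-(k : ℤ)) = (-1) * (k : ℤ) by ring, jacobiSym.mul_left,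
      jacobiSym.at_neg_one hpo]
    congr 1
    exact (jacobiSym.quadratic_reciprocity_one_mod_four h1 hpo).symm
  · rw [if_neg (by omega)]
    have e1 : 8 * k / 4 = 2 * k := by omega
    rw [e1]
    have hk4 : k % 4 = 1 ∨ k % 4 = 3 := by omega
    rcases hk4 with h | h
    · rw [if_pos (by omega)]
      push_cast
      rw [show (-(2 * (k : ℤ))) = (-2) * (k : ℤ) by ring, jacobiSym.mul_left,
        jacobiSym.at_neg_two hpo]
      congr 1
      exact (jacobiSym.quadratic_reciprocity_one_mod_four h hpo).symm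
    · rw [if_neg (by omega)]
      push_cast
      rw [show (-(2 * (k : ℤ))) = 2 * (-1 * (k : ℤ)) by ring, jacobiSym.mul_left,
        jacobiSym.at_two hpo]
      congr 1
      rw [jacobiSym.mul_left, jacobiSym.at_neg_one hpo]
      rcases (by omega : p % 4 = 1 ∨ p % 4 = 3) with h5 | h5
      · rw [ZMod.χ₄_nat_one_mod_four h5, one_mul]
        exact jacobiSym.quadratic_reciprocity_one_mod_four h5 hko
      · rw [ZMod.χ₄_nat_three_mod_four h5]
        rw [jacobiSym.quadratic_reciprocity_three_mod_four h5 h]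
        ring

end Pool.Agent.N975.ChE
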