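import Pool.Agent.N975.Sym

/-!
# The character sum of the odd symbol of level `15`
-/

set_option autoImplicit false

open Finset

namespace Pool.Agent.N975.Sym

open Pool.Agent.N969.P15

theorem cls0_cop {n : ℕ} (hn : Cls0 n) : Nat.Coprime 15 n := by
  obtain ⟨-, h⟩ := hn
  rw [show (15 : ℕ) = 3 * 5 by norm_num]
  refine Nat.Coprime.mul_left ?_ ?_
  · rw [Nat.Prime.coprime_iff_not_dvd Nat.prime_three]
    omega
  · rw [Nat.Prime.coprime_iff_not_dvd (by norm_num)]
    omega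

theorem cop15 {n : ℕ} (h15 : Nat.Coprime 15 n) {u : ℕ} (hu : Nat.Coprime u n) :
    IsCoprime (15 * (u : ℤ)) (n : ℤ) := by
  refine IsCoprime.mul_left ?_ ?_
  · exact_mod_cast (Nat.isCoprime_iff_coprime.2 h15)
  · exact Nat.isCoprime_iff_coprime.2 hu

/-- the character sum of the symbol, in terms of the counting function -/
theorem sum_symb {s : ℚ → ℤ} (H : SymbM s) {n : ℕ} (hn : n ≠ 0) (h15 : Nat.Coprime 15 n) :
    ∑ u ∈ un n, jacobiSym u n * s ((u : ℚ) / n) =
      s (1 / 4) * ∑ u ∈ un n, jacobiSym u n * Fp u n := by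
  rw [Finset.mul_sum]
  refine Finset.sum_congr rfl fun u hu => ?_
  have hu2 : Nat.Coprime u n := (Finset.mem_filter.1 hu).2
  have h1 := t_SYM H (x := u) (M := n) (by exact_mod_cast hn) (cop15 h15 hu2)
  have h2 : s (((u : ℕ) : ℚ) / ((n : ℕ) : ℚ)) = s (1 / 4) * Fp u n := by
    rw [← h1]
    push_cast
    rfl
  rw [h2]
  ring

/-- the character sum of the symbol is a square up to a factor -/
theorem sum_symb_eq (hD : S_DIAG) {s : ℚ → ℤ} (H : SymbM s) {n : ℕ} (hn : Cls0 n) :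
    18 * ∑ u ∈ un n, jacobiSym u n * s ((u : ℚ) / n) = s (1 / 4) * cc n ^ 2 := by
  have hn0 : n ≠ 0 := hn.1.ne_zero
  rw [sum_symb H hn0 (cls0_cop hn), ← hD n hn]
  ring

/-- the character sum of the symbol does not vanish if there is no ideal class of order four -/
theorem sum_symb_ne (hD : S_DIAG) (hP : S_PAR) {s : ℚ → ℤ} (H : SymbM s) (h4 : s (1 / 4) ≠ 0)
    {n : ℕ} (hn : Cls0 n) (hQ : Qc n) :
    ∑ u ∈ un n, jacobiSym u n * s ((u : ℚ) / n) ≠ 0 := by
  intro h0
  have h1 := sum_symb_eq hD H hn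
  rw [h0, mul_zero] at h1
  have h2 : cc n ^ 2 = 0 := by
    rcases mul_eq_zero.1 h1.symm with h3 | h3
    · exact absurd h3 h4
    · exact h3
  have h3 : cc n = 0 := pow_eq_zero_iff (by norm_num) |>.1 h2
  obtain ⟨y, hy, hodd⟩ := hP n hn
  rw [h3] at hy
  have h5 : y = 0 := by
    rcases mul_eq_zero.1 hy.symm with h6 | h6
    · exact absurd h6 (by positivity)
    · exact h6
  have h7 := hodd.2 hQ
  rw [h5] at h7
  exact absurd h7 (by decide)

end Pool.Agent.N975.Sym
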