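import Pool.Agent.N974.Gen.Act

/-!
# The periods of a cusp form of weight two are not all on a line

Maximum principle: the real part of a multiple of the primitive would be an invariant function
tending to zero at the cusps.
-/

set_option autoImplicit false
set_option linter.unusedSectionVars false

open UpperHalfPlane MatrixGroups CongruenceSubgroup Filter Topology MeasureTheory Set ModularGroup
open scoped ModularForm Pointwise Modular

namespace Pool.Agent.N975.NV

open Pool.Agent.W97.TW
open Pool.Agent.W97.MT (H_open iI iI_pos iI_eventually)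
open Pool.Agent.N974.MF (Hor mob_inf_hor)
open Pool.Agent.N974.Gen

/-- an invariant function which tends to zero at the cusps and is positive somewhere has a
maximum -/
theorem exists_max {v : ℍ → ℝ} (hc : Continuous v) {Γ : Subgroup SL(2, ℤ)} [Γ.FiniteIndex]
    (hinv : ∀ g ∈ Γ, ∀ τ, v (g • τ) = v τ)
    (hcusp : ∀ g : SL(2, ℤ), Tendsto (fun τ => v (g • τ)) atImInfty (𝓝 0)) {z0 : ℍ}
    (h0 : 0 < v z0) : ∃ zm, ∀ z, v z ≤ v zm := by
  have : Fintype (SL(2, ℤ) ⧸ Γ) := Subgroup.fintypeQuotientOfFiniteIndex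
  set rep : SL(2, ℤ) ⧸ Γ → SL(2, ℤ) := fun q => q.out with hrep
  -- the value at a point in terms of the representatives
  have hval : ∀ (g : SL(2, ℤ)) (z : ℍ), v ((rep (g : SL(2, ℤ) ⧸ Γ))⁻¹ • (g • z)) = v z := by
    intro g z
    have h1 : (rep (g : SL(2, ℤ) ⧸ Γ))⁻¹ * g ∈ Γ := by
      rw [← QuotientGroup.eq]
      exact Quotient.out_eq' _
    rw [← mul_smul]
    exact hinv _ h1 z
  -- the heights
  have hT : ∀ q : SL(2, ℤ) ⧸ Γ, ∃ T : ℝ, ∀ w : ℍ, T ≤ w.im → v ((rep q)⁻¹ • w) < v z0 := by
    intro q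
    have h1 := (hcusp (rep q)⁻¹).eventually (gt_mem_nhds h0)
    rw [atImInfty, eventually_comap, eventually_atTop] at h1
    obtain ⟨T, hT⟩ := h1
    exact ⟨T, fun w hw => hT w.im hw w rfl⟩
  choose T hT using hT
  obtain ⟨TM, hTM⟩ : ∃ TM : ℝ, ∀ q, T q ≤ TM := by
    refine ⟨∑ q, |T q|, fun q => (le_abs_self _).trans ?_⟩
    exact Finset.single_le_sum (f := fun q => |T q|) (fun _ _ => abs_nonneg _)
      (Finset.mem_univ q)
  -- the compact set
  have hK := isCompact_truncatedFundamentalDomain TM
  obtain ⟨g0, hg0⟩ := exists_smul_mem_fd z0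
  have hz0K : g0 • z0 ∈ truncatedFundamentalDomain TM := by
    refine ⟨hg0, ?_⟩
    by_contra h
    push Not at h
    have h1 := hT (g0 : SL(2, ℤ) ⧸ Γ) (g0 • z0) ((hTM _).trans h.le)
    rw [hval] at h1
    exact lt_irrefl _ h1
  have hcont : ∀ q : SL(2, ℤ) ⧸ Γ, Continuous fun w : ℍ => v ((rep q)⁻¹ • w) := fun q => by
    simp only [sl_moeb]
    fun_prop
  have hmax : ∀ q : SL(2, ℤ) ⧸ Γ, ∃ w : ℍ, ∀ w' ∈ truncatedFundamentalDomain TM,
      v ((rep q)⁻¹ • w') ≤ v ((rep q)⁻¹ • w) := by
    intro q
    obtain ⟨w, -, hw⟩ := hK.exists_isMaxOn ⟨_, hz0K⟩ (hcont q).continuousOn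
    exact ⟨w, fun w' hw' => hw hw'⟩
  choose W hW using hmax
  obtain ⟨qm, -, hqm⟩ := Finset.exists_max_image (Finset.univ : Finset (SL(2, ℤ) ⧸ Γ))
    (fun q => v ((rep q)⁻¹ • W q)) ⟨(1 : SL(2, ℤ)), Finset.mem_univ _⟩
  refine ⟨(rep qm)⁻¹ • W qm, fun z => ?_⟩
  obtain ⟨g, hg⟩ := exists_smul_mem_fd z
  have hin : ∀ (g : SL(2, ℤ)) (z : ℍ), g • z ∈ truncatedFundamentalDomain TM →
      v z ≤ v ((rep qm)⁻¹ • W qm) := by
    intro g z hgz
    have h1 := hW (g : SL(2, ℤ) ⧸ Γ) _ hgz
    rw [hval] at h1
    exact h1.trans (hqm _ (Finset.mem_univ _))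
  by_cases h : (g • z).im ≤ TM
  · exact hin g z ⟨hg, h⟩
  · push Not at h
    have h1 := hT (g : SL(2, ℤ) ⧸ Γ) (g • z) ((hTM _).trans h.le)
    rw [hval] at h1
    exact h1.le.trans (hin g0 z0 hz0K)

variable {N : ℕ} [NeZero N] (f : CuspForm (Gamma0 N : Subgroup (GL (Fin 2) ℝ)) 2)

/-- the integrals are not all on a line through the origin -/
theorem exists_re_ne (hf : f ≠ 0) {ω : ℂ} (hω : ω ≠ 0) : ∃ r : ℚ, (ω * II f r).re ≠ 0 := by
  by_contra hcon
  push Not at hcon
  -- the function
  set v : ℍ → ℝ := fun z => (ω * F f z).re with hv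
  have hFc : Continuous fun z : ℍ => F f z := by
    refine (F_cont f).comp_continuous UpperHalfPlane.continuous_coe fun z => z.im_pos
  have hc : Continuous v := by
    rw [hv]
    exact Complex.continuous_re.comp (continuous_const.mul hFc)
  -- invariance
  have hinv : ∀ g ∈ Gamma0 N, ∀ τ : ℍ, v (g • τ) = v τ := by
    intro g hg τ
    obtain ⟨a, b, c, d, h, rfl⟩ := exists_mkSL g
    rw [mkSL_mem] at hg
    obtain ⟨c1, rfl⟩ := hg
    have e : ((mkSL a b ((N : ℤ) * c1) d h • τ : ℍ) : ℂ) =
        (a * (τ : ℂ) + b) / ((N : ℂ) * c1 * τ + d) := by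
      rw [mkSL_smul]
      push_cast
      rfl
    obtain ⟨p, hp⟩ := F_gamma f h
    have hp0 : (ω * p).re = 0 := by
      by_cases hc0 : c1 = 0
      · subst hc0
        have hd : (d : ℚ) ≠ 0 := by
          intro h1
          have h2 : d = 0 := by exact_mod_cast h1
          rw [h2] at h
          simp at h
        have h2 := II_gamma f h hp 0 (by simpa using hd)
        have h3 : ω * p = ω * II f ((a * 0 + b) / ((N : ℚ) * ((0 : ℤ) : ℚ) * 0 + d)) -
            ω * II f 0 := by
          rw [h2]; ring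
        rw [h3, Complex.sub_re, hcon, hcon, sub_zero]
      · have h2 := II_gamma_inf f h hp hc0
        rw [← h2]
        exact hcon _
    rw [hv]
    simp only
    rw [e, hp _ τ.im_pos, mul_add, Complex.add_re, hp0, add_zero]
  -- the cusps
  have hcusp : ∀ g : SL(2, ℤ), Tendsto (fun τ : ℍ => v (g • τ)) atImInfty (𝓝 0) := by
    intro g
    obtain ⟨a, b, c, d, h, rfl⟩ := exists_mkSL g
    have hI : Tendsto (fun τ : ℍ => (τ : ℂ)) atImInfty iI := by
      unfold iI atImInfty
      rw [tendsto_comap_iff]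
      exact tendsto_comap
    have e : ∀ τ : ℍ, ((mkSL a b c d h • τ : ℍ) : ℂ) = (a * (τ : ℂ) + b) / (c * τ + d) :=
      fun τ => mkSL_smul h τ
    by_cases hc0 : c = 0
    · subst hc0
      have hd : a * d = 1 := by linarith
      have had : (a : ℂ) * d = 1 := by exact_mod_cast hd
      have hd0 : (d : ℂ) ≠ 0 := by
        intro h0
        rw [h0, mul_zero] at had
        exact zero_ne_one had
      have haa : (a : ℂ) / d = 1 := by
        rcases Int.eq_one_or_neg_one_of_mul_eq_one' hd with ⟨h1, h2⟩ | ⟨h1, h2⟩ <;>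
          rw [h1, h2] <;> norm_num
      have h1 : Tendsto (fun z : ℂ => (a * z + b) / (((0 : ℤ) : ℂ) * z + d)) iI iI := by
        unfold iI
        rw [tendsto_comap_iff]
        have h2 : (Complex.im ∘ fun z : ℂ => (a * z + b) / (((0 : ℤ) : ℂ) * z + d)) =
            Complex.im := by
          funext z
          have h3 : (a * z + b) / (((0 : ℤ) : ℂ) * z + d) = z + (((a * b : ℤ) : ℝ) : ℂ) := by
            push_cast
            rw [zero_mul, zero_add, add_div, mul_div_right_comm, haa, one_mul]
            congr 1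
            rw [div_eq_iff hd0]
            linear_combination -b * had
          simp only [Function.comp_apply]
          rw [h3, Complex.add_im, Complex.ofReal_im, add_zero]
        rw [h2]
        exact tendsto_comap
      have h2 := ((F_QV f).tendsto.comp (h1.comp hI))
      have h3 : Tendsto (fun τ : ℍ => (ω * F f ((a * (τ : ℂ) + b) / (((0 : ℤ) : ℂ) * τ + d))).re)
          atImInfty (𝓝 (ω * 0).re) :=
        (Complex.continuous_re.tendsto _).comp (h2.const_mul ω)
      rw [mul_zero, Complex.zero_re] at h3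
      refine h3.congr fun τ => ?_
      rw [hv]
      simp only
      rw [e]
    · have hc' : (c : ℝ) ≠ 0 := by exact_mod_cast hc0
      have h1 := mob_inf_hor (A := a) (B := b) (C := c) (D := d)
        (by
          have : (a : ℝ) * d - b * c = 1 := by exact_mod_cast h
          rw [this]
          norm_num) hc'
      have e1 : (((a : ℝ) / (c : ℝ) : ℝ) : ℂ) = (((a : ℚ) / (c : ℚ) : ℚ) : ℂ) := by
        push_cast
        rfl
      rw [e1] at h1
      have h2 := (F_hor f ((a : ℚ) / (c : ℚ))).comp (h1.comp hI)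
      have h3 : Tendsto (fun τ : ℍ => (ω * F f ((a * (τ : ℂ) + b) / (c * τ + d))).re)
          atImInfty (𝓝 (ω * II f ((a : ℚ) / (c : ℚ))).re) := by
        refine (Complex.continuous_re.tendsto _).comp ?_
        refine Tendsto.const_mul ω ?_
        simpa [Function.comp_def] using h2
      rw [hcon] at h3
      refine h3.congr fun τ => ?_
      rw [hv]
      simp only
      rw [e]
  -- the primitive is constant
  have key : ∀ z : ℂ, 0 < z.im → ff f z = 0 := by
    -- a point where the real part is not zero or it vanishes identically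
    have hconst : ∀ ε : ℝ, (ε = 1 ∨ ε = -1) → ∀ zm : ℍ, (∀ z : ℍ, ε * v z ≤ ε * v zm) →
        ∀ z : ℂ, 0 < z.im → ff f z = 0 := by
      intro ε hε zm hzm z hz
      have hε0 : (ε : ℂ) ≠ 0 := by
        rcases hε with h | h <;> rw [h] <;> norm_num
      set G : ℂ → ℂ := fun z => Complex.exp (ε * (ω * F f z)) with hG
      have hn : ∀ w : ℍ, ‖G w‖ = Real.exp (ε * v w) := by
        intro w
        rw [hG]
        simp only
        rw [Complex.norm_exp, Complex.re_ofReal_mul]
      have hd : ∀ w : ℂ, 0 < w.im → HasDerivAt G (Complex.exp (ε * (ω * F f w)) *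
          (ε * (ω * (2 * Real.pi * Complex.I * ff f w)))) w := by
        intro w hw
        have h1 := ((F_deriv f hw).const_mul ω).const_mul (ε : ℂ)
        exact h1.cexp
      have h1 : EqOn G (Function.const ℂ (G zm)) {z : ℂ | 0 < z.im} := by
        refine Complex.eqOn_of_isPreconnected_of_isMaxOn_norm
          (convex_halfSpace_im_gt 0).isPreconnected H_open
          (fun w hw => (hd w hw).differentiableAt.differentiableWithinAt) zm.im_pos ?_
        intro w hw
        have h2 := hn ⟨w, hw⟩
        show ‖G w‖ ≤ ‖G zm‖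
        rw [hn zm]
        refine (le_of_eq h2).trans ?_
        exact Real.exp_le_exp.2 (hzm ⟨w, hw⟩)
      have h2 : HasDerivAt G 0 z := by
        refine (hasDerivAt_const z (G zm)).congr_of_eventuallyEq ?_
        filter_upwards [H_open.mem_nhds hz] with w hw
        exact h1 hw
      have h3 := (hd z hz).unique h2
      have hpi : (2 * (Real.pi : ℂ) * Complex.I) ≠ 0 := Complex.two_pi_I_ne_zero
      rcases mul_eq_zero.1 h3 with h4 | h4
      · exact absurd h4 (Complex.exp_ne_zero _)
      · rcases mul_eq_zero.1 h4 with h5 | h5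
        · exact absurd h5 hε0
        · rcases mul_eq_zero.1 h5 with h6 | h6
          · exact absurd h6 hω
          · exact (mul_eq_zero.1 h6).resolve_left hpi
    by_cases hz : ∀ z, v z = 0
    · exact hconst 1 (Or.inl rfl) UpperHalfPlane.I fun z => by rw [hz, hz]
    · push Not at hz
      obtain ⟨z0, hz0⟩ := hz
      rcases lt_or_gt_of_ne hz0 with h1 | h1
      · obtain ⟨zm, hzm⟩ := exists_max (v := fun z => -v z) hc.neg (Γ := Gamma0 N)
          (fun g hg τ => by rw [hinv g hg τ])
          (fun g => by simpa using (hcusp g).neg) (z0 := z0) (by linarith)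
        exact hconst (-1) (Or.inr rfl) zm fun z => by
          have := hzm z
          linarith
      · obtain ⟨zm, hzm⟩ := exists_max hc hinv hcusp h1
        exact hconst 1 (Or.inl rfl) zm fun z => by
          have := hzm z
          linarith
  apply hf
  ext z
  rw [← ff_H, key _ z.im_pos]
  rfl

/-- the imaginary parts of the integrals do not all vanish -/
theorem exists_im_ne (hf : f ≠ 0) : ∃ r : ℚ, (II f r).im ≠ 0 := by
  obtain ⟨r, hr⟩ := exists_re_ne f hf (ω := -Complex.I) (by simp)
  refine ⟨r, ?_⟩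
  intro h
  apply hr
  simp [h]

end Pool.Agent.N975.NV
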