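import Pool.Agent.N974.MF.LfinG
import Pool.Agent.N975.ChE2

/-!
# The `L`-function of the twists of `X_0(15)` by the even discriminants
-/

set_option autoImplicit false

open Finset CongruenceSubgroup ZMod

namespace Pool.Agent.N975.LfinE

open Pool.Agent.N969.P15 (Ev chE un)
open Pool.Agent.N974.MF
open Pool.Agent.W97.MT (ap)
open Pool.Agent.Y687 (cnt cnt_eq fac)
open Pool.Agent.N975.ChE

/-- point counts of the twist -/
theorem cnt_twistL (A B D : ℤ) (p : ℕ) [Fact p.Prime] (hp : p ≠ 2) (hpD : ¬ (p : ℤ) ∣ D) :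
    (p : ℤ) - cnt (A * D ^ 2) (B * D ^ 3) p = jacobiSym D p * ((p : ℤ) - cnt A B p) := by
  have hM0 : (D : ZMod p) ≠ 0 := by
    intro h
    exact hpD ((ZMod.intCast_zmod_eq_zero_iff_dvd D p).1 h)
  rw [cnt_eq _ _ p hp, cnt_eq _ _ p hp]
  have h5 : quadraticChar (ZMod p) (D : ZMod p) = jacobiSym D p := by
    rw [← jacobiSym.legendreSym.to_jacobiSym, legendreSym]
  rw [← h5, mul_neg, Finset.mul_sum]
  congr 1
  symm
  refine Fintype.sum_equiv (Equiv.mulLeft₀ (D : ZMod p) hM0) _ _ fun x => ?_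
  have h4 : quadraticChar (ZMod p) (D : ZMod p) = quadraticChar (ZMod p) ((D : ZMod p) ^ 3) := by
    rw [pow_succ, map_mul, quadraticChar_sq_one' hM0, one_mul]
  rw [h4, ← map_mul, Equiv.mulLeft₀_apply]
  congr 1
  push_cast
  ring

/-- transport to units -/
theorem sum_unC {M : ℕ} [NeZero M] (g : ℕ → ℂ) :
    ∑ a ∈ un M, g a = ∑ u : (ZMod M)ˣ, g (u : ZMod M).val := by
  refine (Finset.sum_bij (fun (u : (ZMod M)ˣ) _ => (u : ZMod M).val) ?_ ?_ ?_ ?_).symm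
  · intro u _
    exact Finset.mem_filter.2 ⟨Finset.mem_range.2 (ZMod.val_lt _), ZMod.val_coe_unit_coprime u⟩
  · intro u _ v _ h
    exact Units.ext (ZMod.val_injective M h)
  · intro a ha
    have ha1 := Finset.mem_range.1 (Finset.mem_filter.1 ha).1
    have ha2 := (Finset.mem_filter.1 ha).2
    refine ⟨ZMod.unitOfCoprime a ha2, Finset.mem_univ _, ?_⟩
    rw [ZMod.coe_unitOfCoprime, ZMod.val_natCast, Nat.mod_eq_of_lt ha1]
  · intro u _
    rfl

/-- the `L`-function of the twist by the even discriminant `-n`, `n = 4 m` -/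
theorem exists_fE (hlat : S_LAT) {n : ℕ} (hE : Ev n) :
    ∃ (f : ℂ → ℂ) (g1 : ℂ), Differentiable ℂ f ∧
      (∀ s : ℂ, (3 : ℝ) / 2 < s.re →
        HasProd (fun p : {p : ℕ // p.Prime ∧
            ¬ ((p : ℤ) ∣ 2 * (4 * (-12987 * (-((n / 4 : ℕ) : ℤ)) ^ 2) ^ 3 +
              27 * (-263466 * (-((n / 4 : ℕ) : ℤ)) ^ 3) ^ 2))} =>
          fac (-12987 * (-((n / 4 : ℕ) : ℤ)) ^ 2) (-263466 * (-((n / 4 : ℕ) : ℤ)) ^ 3) s p) (f s)) ∧
      (g1 ≠ 0 → f 1 ≠ 0) ∧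
      ∃ τ : ℂ, τ * g1 = ∑ a ∈ un n, ((chE n a : ℤ) : ℂ) * II ((a : ℚ) / n) := by
  have hn := ev_mod hE
  have : NeZero n := ⟨by omega⟩
  have habs : (-((n / 4 : ℕ) : ℤ)).natAbs = n / 4 := by rw [Int.natAbs_neg, Int.natAbs_natCast]
  have hdvd : ∀ p : ℕ, p.Prime → p ≠ 2 → (p ∣ n / 4 ↔ p ∣ n) := by
    intro p hp h2
    have e : n = 4 * (n / 4) := by omega
    have hc : Nat.Coprime p 4 := by
      have : Nat.Coprime p 2 := (Nat.coprime_primes hp Nat.prime_two).2 h2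
      exact Nat.Coprime.mul_right this this
    constructor
    · intro h
      rw [e]
      exact h.mul_left 4
    · intro h
      rw [e] at h
      exact hc.dvd_of_dvd_mul_left h
  obtain ⟨f, g1, k1, k2, k3, k4⟩ := exists_fG hlat (-((n / 4 : ℕ) : ℤ)) (chi n hn)
    (chi_primitive hE) (fun p => chE n p) (fun p _ => chi_nat n hn p)
    (fun p hp => by
      by_cases hpn : p ∣ n
      · exact Or.inl (chE_zero hn (fun h => hp.one_lt.ne' (Nat.eq_one_of_dvd_coprimes h dvd_rfl hpn)))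
      · exact Or.inr (chE_pm hn ((Nat.Prime.coprime_iff_not_dvd hp).2 hpn)))
    (fun p hp q2 _ _ hpD => by
      rw [habs, hdvd p hp q2] at hpD
      exact chE_zero hn (fun h => hp.one_lt.ne' (Nat.eq_one_of_dvd_coprimes h dvd_rfl hpD)))
    (fun p hp q2 q3 _ hpD => by
      have : Fact p.Prime := ⟨hp⟩
      rw [habs, hdvd p hp q2] at hpD
      refine ⟨?_, ?_⟩
      · rcases chE_pm hn ((Nat.Prime.coprime_iff_not_dvd hp).2 hpD) with h | h <;>
          rw [h] <;> norm_num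
      · have h5 := cnt_twistL (-12987) (-263466) (-((n / 4 : ℕ) : ℤ)) p q2 (by
          rw [dvd_neg, Int.natCast_dvd_natCast, hdvd p hp q2]
          exact hpD)
        rw [cnt_E15 p hp q2 q3, ← chE_prime hE hp q2] at h5
        exact h5)
  refine ⟨f, g1, k1, k2, k3, gaussSum (chi n hn)⁻¹ (stdAddChar (N := n)), ?_⟩
  rw [k4, chi_inv n hn, sum_unC]
  refine Finset.sum_congr rfl fun u _ => ?_
  rw [← chi_nat n hn, ZMod.natCast_zmod_val]

/-- nonvanishing for even discriminants -/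
theorem exists_f_neE (hlat : S_LAT) {n : ℕ} (hE : Ev n)
    {sp sm : ℚ → ℤ} {Op Om : ℝ} (hOp : 0 < Op) (hOm : 0 < Om)
    (hs : ∀ r : ℚ, (4 : ℂ) * II r = sp r * Op + 2 * sm r * Om * Complex.I)
    (hne : ∑ u ∈ un n, chE n u * sp ((u : ℚ) / n) ≠ 0 ∨
      ∑ u ∈ un n, chE n u * sm ((u : ℚ) / n) ≠ 0) :
    ∃ f : ℂ → ℂ, Differentiable ℂ f ∧
      (∀ s : ℂ, (3 : ℝ) / 2 < s.re →
        HasProd (fun p : {p : ℕ // p.Prime ∧
            ¬ ((p : ℤ) ∣ 2 * (4 * (-12987 * (-((n / 4 : ℕ) : ℤ)) ^ 2) ^ 3 +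
              27 * (-263466 * (-((n / 4 : ℕ) : ℤ)) ^ 3) ^ 2))} =>
          fac (-12987 * (-((n / 4 : ℕ) : ℤ)) ^ 2) (-263466 * (-((n / 4 : ℕ) : ℤ)) ^ 3) s p) (f s)) ∧
      f 1 ≠ 0 := by
  obtain ⟨f, g1, hf1, hf2, hf3, τ, hτ⟩ := exists_fE hlat hE
  refine ⟨f, hf1, hf2, hf3 ?_⟩
  rintro rfl
  rw [mul_zero] at hτ
  exact sum_ne (un n) (fun a => chE n a) (fun a => (a : ℚ) / n) hOp hOm hs hne hτ.symm

end Pool.Agent.N975.LfinE
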