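import Pool.Agent.N975.LatGen

/-!
Existence of a rhombic period lattice with given real invariants of negative discriminant.
-/

set_option autoImplicit false

open Set Filter Topology

namespace Pool.Agent.N975.LatRh

open Pool.Agent.H285R3.Str Pool.Agent.W520
open Pool.Agent.W646.MT

theorem sq_norm_re (m n : ℤ) (t : ℝ) :
    ‖(m : ℂ) + n * tau t‖ ^ 2 = ((m : ℝ) + n / 2) ^ 2 + ((n : ℝ) * t) ^ 2 := by
  rw [← Complex.normSq_eq_norm_sq, Complex.normSq_apply]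
  simp [tau]
  ring

theorem term_le (k : ℕ) {m n : ℤ} {s t : ℝ} (hs : 0 < s) (ht : s ≤ t) :
    ‖(((m : ℂ) + n * tau t) ^ k)⁻¹‖ ≤ ‖(((m : ℂ) + n * tau s) ^ k)⁻¹‖ := by
  by_cases h : (m, n) = (0, 0)
  · rw [Prod.mk.injEq] at h
    obtain ⟨rfl, rfl⟩ := h
    simp
  · rw [norm_inv, norm_inv, norm_pow, norm_pow]
    have h1 : 0 < ‖(m : ℂ) + n * tau s‖ := norm_pos_iff.2 (pt_ne hs.ne' h)
    apply inv_anti₀ (pow_pos h1 k)
    apply pow_le_pow_left₀ h1.le
    apply le_of_sq_le_sq _ (norm_nonneg _)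
    rw [sq_norm_re, sq_norm_re]
    have h3 : s ^ 2 ≤ t ^ 2 := by nlinarith
    have h4 : ((n : ℝ) * s) ^ 2 ≤ ((n : ℝ) * t) ^ 2 := by
      rw [mul_pow, mul_pow]
      exact mul_le_mul_of_nonneg_left h3 (sq_nonneg _)
    linarith

/-- continuity -/
theorem G_cont' (k : ℕ) (hk : 2 < k) {s : ℝ} (hs : 0 < s) (T : ℝ) : ContinuousOn
    (fun t : ℝ => ∑' p : ℤ × ℤ, (((p.1 : ℂ) + p.2 * tau t) ^ k)⁻¹) (Icc s T) := by
  refine continuousOn_tsum (u := fun p : ℤ × ℤ => ‖(((p.1 : ℂ) + p.2 * tau s) ^ k)⁻¹‖) ?_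
    (G_summable s hs.ne' k hk).norm ?_
  · rintro ⟨m, n⟩
    by_cases h : (m, n) = (0, 0)
    · rw [Prod.mk.injEq] at h
      obtain ⟨rfl, rfl⟩ := h
      simpa using continuousOn_const
    · have hc : Continuous tau := by
        have : tau = fun t : ℝ => (1 / 2 : ℂ) + t * Complex.I := funext tau_eq
        rw [this]
        fun_prop
      apply ContinuousOn.inv₀
      · fun_prop
      · intro t ht
        apply pow_ne_zero
        exact pt_ne (by have := ht.1; linarith) h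
  · rintro ⟨m, n⟩ t ht
    exact term_le k hs ht.1

/-- the limit of the Eisenstein series -/
theorem G_lim (k : ℕ) (hk : 2 < k) (he : Even k) {z : ℝ}
    (hz : HasSum (fun n : ℕ => 1 / (n : ℝ) ^ k) z) : Tendsto
    (fun t : ℝ => ∑' p : ℤ × ℤ, (((p.1 : ℂ) + p.2 * tau t) ^ k)⁻¹) atTop
      (𝓝 ((2 * z : ℝ) : ℂ)) := by
  have h1 := tendsto_tsum_of_dominated_convergence (𝓕 := atTop)
    (f := fun (t : ℝ) (p : ℤ × ℤ) => (((p.1 : ℂ) + p.2 * tau t) ^ k)⁻¹)
    (g := fun p : ℤ × ℤ => if p.2 = 0 then ((p.1 : ℂ) ^ k)⁻¹ else 0)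
    (G_summable 1 one_ne_zero k hk).norm ?_ ?_
  · have h2 : HasSum (fun m : ℤ => ((m : ℂ) ^ k)⁻¹) ((2 * z : ℝ) : ℂ) := by
      have h3 : HasSum (fun n : ℕ => (((n : ℤ) : ℂ) ^ k)⁻¹) (z : ℂ) := by
        have := Complex.hasSum_ofReal.2 hz
        refine this.congr_fun ?_ |> fun x => x
        intro n
        push_cast
        rw [one_div]
      have h4 : HasSum (fun n : ℕ => (((-(n : ℤ) : ℤ) : ℂ) ^ k)⁻¹) (z : ℂ) := by
        refine h3.congr_fun ?_ |> fun x => x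
        intro n
        push_cast
        rw [he.neg_pow]
      have h5 := HasSum.of_nat_of_neg (f := fun m : ℤ => ((m : ℂ) ^ k)⁻¹) h3 h4
      have h6 : (((0 : ℤ) : ℂ) ^ k)⁻¹ = 0 := by
        rw [Int.cast_zero, zero_pow (by omega), inv_zero]
      rw [h6] at h5
      have e : ((2 * z : ℝ) : ℂ) = (z : ℂ) + z - 0 := by push_cast; ring
      rw [e]
      exact h5
    have h7 : Function.Injective (fun m : ℤ => ((m, 0) : ℤ × ℤ)) := fun a b h => by
      simpa using h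
    have h8 : HasSum (fun p : ℤ × ℤ => if p.2 = 0 then ((p.1 : ℂ) ^ k)⁻¹ else 0)
        ((2 * z : ℝ) : ℂ) := by
      rw [← h7.hasSum_iff]
      · refine h2.congr_fun ?_ |> fun x => x
        intro m
        simp
      · rintro ⟨m, n⟩ hx
        rw [if_neg]
        rintro rfl
        exact hx ⟨m, rfl⟩
    rw [h8.tsum_eq] at h1
    exact h1
  · rintro ⟨m, n⟩
    by_cases hn : n = 0
    · subst hn
      simp
    · simp only [if_neg hn]
      have h2 : Tendsto (fun t : ℝ => t⁻¹) atTop (𝓝 0) := tendsto_inv_atTop_zero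
      refine squeeze_zero_norm' ?_ h2
      filter_upwards [eventually_ge_atTop (1 : ℝ)] with t ht
      have h3 : t ≤ ‖(m : ℂ) + n * tau t‖ := by
        apply le_of_sq_le_sq _ (norm_nonneg _)
        rw [sq_norm_re]
        have h4 : (1 : ℝ) ≤ (n : ℝ) ^ 2 := by
          have h5 : (1 : ℤ) ≤ n ^ 2 := by
            have := Int.one_le_abs hn
            nlinarith [sq_abs n]
          exact_mod_cast h5
        nlinarith [sq_nonneg ((m : ℝ) + n / 2), sq_nonneg t]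
      rw [norm_inv, norm_pow]
      apply inv_anti₀ (by linarith)
      calc t ≤ ‖(m : ℂ) + n * tau t‖ := h3
        _ ≤ ‖(m : ℂ) + n * tau t‖ ^ k := le_self_pow₀ (by linarith) (by omega)
  · filter_upwards [eventually_ge_atTop (1 : ℝ)] with t ht
    rintro ⟨m, n⟩
    exact term_le k one_pos ht

theorem g2f_lim : Tendsto g2f atTop (𝓝 (4 * Real.pi ^ 4 / 3)) := by
  have h := G_lim 4 (by norm_num) (by decide) hasSum_zeta_four
  have h1 := ((Complex.continuous_re.tendsto _).comp h).const_mul 60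
  rw [Complex.ofReal_re] at h1
  have e : (60 : ℝ) * (2 * (Real.pi ^ 4 / 90)) = 4 * Real.pi ^ 4 / 3 := by ring
  rw [e] at h1
  exact h1

theorem g3f_lim : Tendsto g3f atTop (𝓝 (8 * Real.pi ^ 6 / 27)) := by
  have h := G_lim 6 (by norm_num) (by decide) Pool.Agent.Y702.P.zeta_six
  have h1 := ((Complex.continuous_re.tendsto _).comp h).const_mul 140
  rw [Complex.ofReal_re] at h1
  have e : (140 : ℝ) * (2 * (Real.pi ^ 6 / 945)) = 8 * Real.pi ^ 6 / 27 := by ring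
  rw [e] at h1
  exact h1

theorem g2_half : g2f (1 / 2) < 0 := by
  have h := G4_half
  rw [W646.MT.G_eq] at h
  unfold g2f
  linarith

theorem g3_half : g3f (1 / 2) = 0 := by
  have h := G6_half
  rw [W646.MT.G_eq] at h
  unfold g3f
  rw [h]
  simp

theorem g2_hex : g2f (√3 / 2) = 0 := by
  have h := G4_hex
  rw [W646.MT.G_eq] at h
  unfold g2f
  rw [h]
  simp

theorem g3_hex : g3f (√3 / 2) ≠ 0 := by
  intro h
  apply not_both (La_halves (t := √3 / 2) (ht := sqrt3_ne))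
  rw [g2_eq, g3_eq, g2_hex, h]
  simp

theorem exists_t' (c2 c3 : ℝ) (h2 : c2 ≠ 0) (hΔ : c2 ^ 3 < 27 * c3 ^ 2) : ∃ t : ℝ, 0 < t ∧
    g2f t ^ 3 * c3 ^ 2 - c2 ^ 3 * g3f t ^ 2 = 0 := by
  have hle : (1 / 2 : ℝ) ≤ √3 / 2 := by
    have : (1 : ℝ) ≤ √3 := by
      rw [Real.one_le_sqrt]
      norm_num
    linarith
  have hg6 : 0 < g3f (√3 / 2) ^ 2 := by
    have := g3_hex
    positivity
  rcases lt_or_gt_of_ne h2 with hneg | hpos
  · -- between the square and the hexagonal lattice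
    have hg2 : ContinuousOn g2f (Icc (1 / 2) (√3 / 2)) :=
      (Complex.continuous_re.comp_continuousOn (G_cont' 4 (by norm_num) (by norm_num) _)).const_mul 60
    have hg3 : ContinuousOn g3f (Icc (1 / 2) (√3 / 2)) :=
      (Complex.continuous_re.comp_continuousOn (G_cont' 6 (by norm_num) (by norm_num) _)).const_mul 140
    have hφ : ContinuousOn (fun t => g2f t ^ 3 * c3 ^ 2 - c2 ^ 3 * g3f t ^ 2)
        (Icc (1 / 2) (√3 / 2)) := by
      fun_prop
    have h5 := intermediate_value_Icc hle hφ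
    have hc3 : c2 ^ 3 < 0 := by
      have e : c2 ^ 3 = c2 * (c2 * c2) := by ring
      rw [e]
      exact mul_neg_of_neg_of_pos hneg (mul_pos_of_neg_of_neg hneg hneg)
    have h6 : (0 : ℝ) ∈ Icc (g2f (1 / 2) ^ 3 * c3 ^ 2 - c2 ^ 3 * g3f (1 / 2) ^ 2)
        (g2f (√3 / 2) ^ 3 * c3 ^ 2 - c2 ^ 3 * g3f (√3 / 2) ^ 2) := by
      rw [g3_half, g2_hex]
      constructor
      · have h8 : g2f (1 / 2) ^ 3 < 0 := by
          have h7 := mul_pos_of_neg_of_neg g2_half g2_half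
          have e : g2f (1 / 2) ^ 3 = g2f (1 / 2) * g2f (1 / 2) * g2f (1 / 2) := by ring
          rw [e]
          exact mul_neg_of_pos_of_neg h7 g2_half
        nlinarith [sq_nonneg c3]
      · nlinarith
    obtain ⟨t, ht, hφt⟩ := h5 h6
    exact ⟨t, by have := ht.1; linarith, hφt⟩
  · -- above the hexagonal lattice
    have hlim := ((g2f_lim.pow 3).mul_const (c3 ^ 2)).sub
      ((g3f_lim.pow 2).const_mul (c2 ^ 3))
    have hpos' : 0 < (4 * Real.pi ^ 4 / 3) ^ 3 * c3 ^ 2 -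
        c2 ^ 3 * (8 * Real.pi ^ 6 / 27) ^ 2 := by
      have e : (4 * Real.pi ^ 4 / 3) ^ 3 * c3 ^ 2 - c2 ^ 3 * (8 * Real.pi ^ 6 / 27) ^ 2 =
          Real.pi ^ 12 * (64 / 27 * c3 ^ 2 - c2 ^ 3 * (64 / 729)) := by ring
      rw [e]
      have := Real.pi_pos
      have h2 : 0 < (64 : ℝ) / 27 * c3 ^ 2 - c2 ^ 3 * (64 / 729) := by nlinarith
      positivity
    obtain ⟨T, hT⟩ := (hlim.eventually (eventually_gt_nhds hpos')).exists_forall_of_atTop
    set T' := max T (√3 / 2) with hT'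
    have hTT := hT T' (le_max_left _ _)
    have hle2 : √3 / 2 ≤ T' := le_max_right _ _
    have h32 : (0 : ℝ) < √3 / 2 := by positivity
    have hg2 : ContinuousOn g2f (Icc (√3 / 2) T') :=
      (Complex.continuous_re.comp_continuousOn (G_cont' 4 (by norm_num) h32 _)).const_mul 60
    have hg3 : ContinuousOn g3f (Icc (√3 / 2) T') :=
      (Complex.continuous_re.comp_continuousOn (G_cont' 6 (by norm_num) h32 _)).const_mul 140
    have hφ : ContinuousOn (fun t => g2f t ^ 3 * c3 ^ 2 - c2 ^ 3 * g3f t ^ 2)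
        (Icc (√3 / 2) T') := by
      fun_prop
    have h5 := intermediate_value_Icc hle2 hφ
    have hc3 : 0 < c2 ^ 3 := pow_pos hpos 3
    have h6 : (0 : ℝ) ∈ Icc (g2f (√3 / 2) ^ 3 * c3 ^ 2 - c2 ^ 3 * g3f (√3 / 2) ^ 2)
        (g2f T' ^ 3 * c3 ^ 2 - c2 ^ 3 * g3f T' ^ 2) := by
      rw [g2_hex]
      constructor
      · nlinarith
      · exact hTT.le
    obtain ⟨t, ht, hφt⟩ := h5 h6
    exact ⟨t, by have := ht.1; linarith, hφt⟩

/-- **the rhombic lattice with given real invariants of negative discriminant** -/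
theorem lat_rhomb (c2 c3 : ℝ) (h2' : c2 ≠ 0) (h3' : c3 ≠ 0) (hΔ : c2 ^ 3 < 27 * c3 ^ 2) :
    ∃ (L : PeriodPair) (Op Om : ℝ), 0 < Op ∧ 0 < Om ∧ L.g₂ = c2 ∧ L.g₃ = c3 ∧
      ∀ w : ℂ, w ∈ L.lattice ↔ ∃ a b : ℤ, 2 ∣ a - b ∧ w = a * Op + b * Om * Complex.I := by
  obtain ⟨t, ht, hφ⟩ := exists_t' c2 c3 h2' hΔ
  have htn := ht.ne'
  set a := g2f t with ha
  set b := g3f t with hb
  have hg2 := g2_eq t htn
  have hg3 := g3_eq t htn
  rw [← ha] at hg2
  rw [← hb] at hg3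
  have hnb : ¬ (a = 0 ∧ b = 0) := by
    rintro ⟨h1, h2⟩
    apply not_both (La_halves (t := t) (ht := htn))
    rw [hg2, hg3, h1, h2]
    simp
  have hb0 : b ≠ 0 := by
    intro h
    apply hnb
    refine ⟨?_, h⟩
    rw [h] at hφ
    have h5 : a ^ 3 * c3 ^ 2 = 0 := by linarith
    have : a ^ 3 = 0 := (mul_eq_zero.1 h5).resolve_right (pow_ne_zero 2 h3')
    exact pow_eq_zero_iff (by norm_num) |>.1 this
  have ha0 : a ≠ 0 := by
    intro h
    apply hnb
    refine ⟨h, ?_⟩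
    rw [h] at hφ
    have h5 : c2 ^ 3 * b ^ 2 = 0 := by linarith
    have : b ^ 2 = 0 := (mul_eq_zero.1 h5).resolve_left (pow_ne_zero 3 h2')
    exact pow_eq_zero_iff (by norm_num) |>.1 this
  set μ : ℝ := (c3 / b) / (c2 / a) with hμ
  have hμ0 : μ ≠ 0 := by
    rw [hμ]
    positivity
  have hcu : c2 ^ 3 * b ^ 2 = c3 ^ 2 * a ^ 3 := by linarith
  have hR : μ * b * c2 = c3 * a := by
    rw [hμ]
    field_simp
  have hb2 : b ^ 2 ≠ 0 := pow_ne_zero _ hb0
  have hμ2 : μ ^ 2 * a = c2 := by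
    have h1 : (b ^ 2 * c2 ^ 2) * (μ ^ 2 * a) = (b ^ 2 * c2 ^ 2) * c2 := by
      linear_combination (μ * b * c2 + c3 * a) * a * hR - hcu
    exact mul_left_cancel₀ (mul_ne_zero hb2 (pow_ne_zero 2 h2')) h1
  have hμ3 : μ ^ 3 * b = c3 := by
    have h1 : (b ^ 2 * c2 ^ 3) * (μ ^ 3 * b) =
        (b ^ 2 * c2 ^ 3) * c3 := by
      linear_combination ((μ * b * c2) ^ 2 + (μ * b * c2) * (c3 * a) +
        (c3 * a) ^ 2) * hR - c3 * hcu
    exact mul_left_cancel₀ (mul_ne_zero hb2 (pow_ne_zero 3 h2')) h1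
  have hμ2' : (μ : ℂ) ^ 2 * a = c2 := by
    rw [← Complex.ofReal_pow, ← Complex.ofReal_mul, hμ2]
  have hμ3' : (μ : ℂ) ^ 3 * b = c3 := by
    rw [← Complex.ofReal_pow, ← Complex.ofReal_mul, hμ3]
  have hμc : (μ : ℂ) ≠ 0 := by exact_mod_cast hμ0
  rcases lt_or_gt_of_ne hμ0 with hneg | hpos
  · obtain ⟨s, hs, hs2⟩ : ∃ s : ℝ, 0 < s ∧ s ^ 2 * (-μ) = 1 := by
      refine ⟨(√(-μ))⁻¹, inv_pos.2 (Real.sqrt_pos.2 (by linarith)), ?_⟩
      rw [inv_pow, Real.sq_sqrt (by linarith), inv_mul_cancel₀ (by linarith)]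
    have hs2' : (s : ℂ) ^ 2 * (-μ) = 1 := by exact_mod_cast hs2
    have hs0 : (s : ℂ) ≠ 0 := by exact_mod_cast hs.ne'
    have hlam : (s : ℂ) * Complex.I ≠ 0 := mul_ne_zero hs0 Complex.I_ne_zero
    have h4 : ((s : ℂ) * Complex.I) ^ 4 * μ ^ 2 = 1 := by
      rw [mul_pow, Complex.I_pow_four]
      linear_combination (-(s : ℂ) ^ 2 * μ + 1) * hs2'
    have h6 : ((s : ℂ) * Complex.I) ^ 6 * μ ^ 3 = 1 := by
      have e : Complex.I ^ 6 = -1 := by
        calc Complex.I ^ 6 = (Complex.I ^ 2) ^ 3 := by ring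
          _ = -1 := by rw [Complex.I_sq]; norm_num
      rw [mul_pow, e]
      linear_combination (((s : ℂ) ^ 2 * (-μ)) ^ 2 + (s : ℂ) ^ 2 * (-μ) + 1) * hs2'
    refine ⟨scale (La t htn) ((s : ℂ) * Complex.I) hlam, s * t, s / 2, by positivity,
      by positivity, ?_, ?_, ?_⟩
    · rw [scale_g2, hg2, ← hμ2', inv_eq_of_mul_eq_one_right h4]
    · rw [scale_g3, hg3, ← hμ3', inv_eq_of_mul_eq_one_right h6]
    · intro w
      rw [PeriodPair.mem_lattice]
      simp only [scale, La, tau_eq]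
      constructor
      · rintro ⟨m, n, rfl⟩
        refine ⟨-n, 2 * m + n, ⟨-n - m, by ring⟩, ?_⟩
        push_cast
        linear_combination (n : ℂ) * s * t * Complex.I_sq
      · rintro ⟨x, y, ⟨k, hk⟩, rfl⟩
        have hy : y = x - 2 * k := by omega
        subst hy
        refine ⟨x - k, -x, ?_⟩
        push_cast
        linear_combination -(x : ℂ) * s * t * Complex.I_sq
  · obtain ⟨s, hs, hs2⟩ : ∃ s : ℝ, 0 < s ∧ s ^ 2 * μ = 1 := by
      refine ⟨(√μ)⁻¹, inv_pos.2 (Real.sqrt_pos.2 hpos), ?_⟩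
      rw [inv_pow, Real.sq_sqrt hpos.le, inv_mul_cancel₀ hμ0]
    have hs2' : (s : ℂ) ^ 2 * μ = 1 := by exact_mod_cast hs2
    have hs0 : (s : ℂ) ≠ 0 := by exact_mod_cast hs.ne'
    have h4 : (s : ℂ) ^ 4 * μ ^ 2 = 1 := by
      linear_combination ((s : ℂ) ^ 2 * μ + 1) * hs2'
    have h6 : (s : ℂ) ^ 6 * μ ^ 3 = 1 := by
      linear_combination (((s : ℂ) ^ 2 * μ) ^ 2 + (s : ℂ) ^ 2 * μ + 1) * hs2'
    refine ⟨scale (La t htn) (s : ℂ) hs0, s / 2, s * t, by positivity,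
      by positivity, ?_, ?_, ?_⟩
    · rw [scale_g2, hg2, ← hμ2', inv_eq_of_mul_eq_one_right h4]
    · rw [scale_g3, hg3, ← hμ3', inv_eq_of_mul_eq_one_right h6]
    · intro w
      rw [PeriodPair.mem_lattice]
      simp only [scale, La, tau_eq]
      constructor
      · rintro ⟨m, n, rfl⟩
        refine ⟨2 * m + n, n, ⟨m, by ring⟩, ?_⟩
        push_cast
        ring
      · rintro ⟨x, y, ⟨k, hk⟩, rfl⟩
        have hx : x = y + 2 * k := by omega
        subst hx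
        refine ⟨k, y, ?_⟩
        push_cast
        ring

/-- the lattice of the curve 17a1 = [1, -1, 1, -1, -14] -/
theorem lat17 : ∃ (L : PeriodPair) (Op Om : ℝ), 0 < Op ∧ 0 < Om ∧
    L.g₂ = 11 / 4 ∧ L.g₃ = 12015 / 216 ∧
    ∀ w : ℂ, w ∈ L.lattice ↔ ∃ a b : ℤ, 2 ∣ a - b ∧ w = a * Op + b * Om * Complex.I := by
  obtain ⟨L, Op, Om, h1, h2, h3, h4, h5⟩ :=
    lat_rhomb (11 / 4) (12015 / 216) (by norm_num) (by norm_num) (by norm_num)
  exact ⟨L, Op, Om, h1, h2, by rw [h3]; norm_num, by rw [h4]; norm_num, h5⟩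

end Pool.Agent.N975.LatRh
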