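import Pool.Agent.N973.P15.Defs4
import Pool.Agent.N975.ChE2

/-!
# Character sums over `n / 6 < j < n / 3` and the character sum of the symbol, `5 ∣ n`
-/

set_option autoImplicit false

open Finset

namespace Pool.Agent.N975.CHB

open Pool.Agent.N969.P15
open Pool.Agent.N973.P15
open Pool.Agent.N975.ChE

/-- the properties of the quadratic characters which are used -/
structure Chr (n : ℕ) (χ : ℤ → ℤ) : Prop where
  mul : ∀ a b, χ (a * b) = χ a * χ b
  per : ∀ a b, (n : ℤ) ∣ a - b → χ a = χ b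
  odd : ∀ a, χ (-a) = -χ a
  one : χ 1 = 1
  zero : ∀ u : ℕ, ¬ Nat.Coprime u n → χ u = 0
  pm : ∀ u : ℕ, Nat.Coprime u n → χ u = 1 ∨ χ u = -1
  three : χ 3 = 1

/-- the sums of the residues -/
def TT (χ : ℤ → ℤ) (n m : ℕ) : ℤ := ∑ j ∈ range n, χ j * ((m * j % n : ℕ) : ℤ)

theorem T_cop {n : ℕ} (hn : 0 < n) {χ : ℤ → ℤ} (H : Chr n χ) {m : ℕ} (hm : Nat.Coprime m n) :
    TT χ n m = χ m * TT χ n 1 := by
  have h1 : TT χ n 1 = χ m * TT χ n m := by
    unfold TT
    rw [Finset.mul_sum]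
    symm
    refine Finset.sum_bij (fun j _ => m * j % n) ?_ ?_ ?_ ?_
    · intro j _
      exact mem_range.2 (Nat.mod_lt _ hn)
    · intro i hi j hj h
      rw [mem_range] at hi hj
      have h2 : m * i ≡ m * j [MOD n] := h
      have h3 := Nat.ModEq.cancel_left_of_coprime (by rw [Nat.gcd_comm]; exact hm) h2
      rwa [Nat.ModEq, Nat.mod_eq_of_lt hi, Nat.mod_eq_of_lt hj] at h3
    · intro r hr
      rw [mem_range] at hr
      obtain ⟨k, hk⟩ := Nat.exists_mul_mod_eq_of_coprime r hm (by omega)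
      refine ⟨k % n, mem_range.2 (Nat.mod_lt _ hn), ?_⟩
      rw [Nat.mul_mod, Nat.mod_mod, ← Nat.mul_mod, hk.2, Nat.mod_eq_of_lt hr]
    · intro j _
      have e : χ ((m * j % n : ℕ) : ℤ) = χ m * χ j := by
        rw [← H.mul]
        refine H.per _ _ ?_
        push_cast
        exact Int.ModEq.dvd (Int.mod_modEq _ _).symm
      rw [e, one_mul, Nat.mod_mod]
      ring
  have h2 : χ m * χ m = 1 := by
    rcases H.pm m hm with h | h <;> rw [h] <;> norm_num
  rw [h1, ← mul_assoc, h2, one_mul]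

theorem bt_floor {n j : ℕ} (hj : j < n) (h3 : ¬ 3 ∣ n) :
    (n : ℤ) * bt j n = -2 * (j : ℤ) - ((6 * j % n : ℕ) : ℤ) + 2 * ((3 * j % n : ℕ) : ℤ) +
      ((2 * j % n : ℕ) : ℤ) := by
  have key : ∀ (m q : ℕ), q * n ≤ m * j → m * j < (q + 1) * n →
      ((m * j % n : ℕ) : ℤ) = (m : ℤ) * j - q * n := by
    intro m q h1 h2
    have h4 : m * j / n = q := by
      refine Nat.div_eq_of_lt_le ?_ ?_
      · linarith
      · linarith
    have h5 := Nat.div_add_mod (m * j) n
    rw [h4] at h5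
    have h6 : ((n * q + m * j % n : ℕ) : ℤ) = ((m * j : ℕ) : ℤ) := by rw [h5]
    push_cast at h6 ⊢
    linarith
  have e6 : ¬ 6 * j = n := by rintro rfl; exact h3 ⟨2 * j, by ring⟩
  have e3 : ¬ 3 * j = n := by rintro rfl; exact h3 ⟨j, rfl⟩
  have e3' : ¬ 3 * j = 2 * n := by
    intro h
    exact h3 ((Nat.Coprime.dvd_of_dvd_mul_left (by norm_num : Nat.Coprime 3 2)) ⟨j, h.symm⟩)
  have e6' : ¬ 6 * j = 5 * n := by
    intro h
    exact h3 ((Nat.Coprime.dvd_of_dvd_mul_left (by norm_num : Nat.Coprime 3 5))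
      ⟨2 * j, by rw [← h]; ring⟩)
  unfold bt
  rcases lt_or_ge (6 * j) n with h | h
  · rw [if_neg (by omega), if_neg (by omega), key 6 0 (by omega) (by omega),
      key 3 0 (by omega) (by omega), key 2 0 (by omega) (by omega)]
    push_cast; ring
  rcases lt_or_ge (3 * j) n with h' | h'
  · rw [if_pos (by omega), if_neg (by omega), key 6 1 (by omega) (by omega),
      key 3 0 (by omega) (by omega), key 2 0 (by omega) (by omega)]
    push_cast; ring
  rcases lt_or_ge (2 * j) n with h2 | h2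
  · rw [if_neg (by omega), if_neg (by omega), key 6 2 (by omega) (by omega),
      key 3 1 (by omega) (by omega), key 2 0 (by omega) (by omega)]
    push_cast; ring
  rcases lt_or_ge (3 * j) (2 * n) with h4 | h4
  · rw [if_neg (by omega), if_neg (by omega), key 6 3 (by omega) (by omega),
      key 3 1 (by omega) (by omega), key 2 1 (by omega) (by omega)]
    push_cast; ring
  rcases lt_or_ge (6 * j) (5 * n) with h5 | h5
  · rw [if_neg (by omega), if_pos (by omega), key 6 4 (by omega) (by omega),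
      key 3 2 (by omega) (by omega), key 2 1 (by omega) (by omega)]
    push_cast; ring
  · rw [if_neg (by omega), if_neg (by omega), key 6 5 (by omega) (by omega),
      key 3 2 (by omega) (by omega), key 2 1 (by omega) (by omega)]
    push_cast; ring

/-- the sum over the two intervals -/
theorem sum_bt {n : ℕ} (hn : 0 < n) {χ : ℤ → ℤ} (H : Chr n χ) (h3 : ¬ 3 ∣ n)
    (h2 : TT χ n 2 = χ 2 * TT χ n 1) (h6 : TT χ n 6 = χ 2 * TT χ n 1) :
    ∑ j ∈ range n, χ j * bt j n = 0 := by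
  have h33 : TT χ n 3 = TT χ n 1 := by
    rw [T_cop hn H ((Nat.Prime.coprime_iff_not_dvd Nat.prime_three).2 h3)]
    push_cast
    rw [H.three, one_mul]
  have h1 : TT χ n 1 = ∑ j ∈ range n, χ j * (j : ℤ) := by
    unfold TT
    refine Finset.sum_congr rfl fun j hj => ?_
    rw [one_mul, Nat.mod_eq_of_lt (mem_range.1 hj)]
  have key : (n : ℤ) * ∑ j ∈ range n, χ j * bt j n = 0 := by
    have e : (n : ℤ) * ∑ j ∈ range n, χ j * bt j n =
        -2 * TT χ n 1 - TT χ n 6 + 2 * TT χ n 3 + TT χ n 2 := by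
      rw [h1]
      unfold TT
      rw [Finset.mul_sum, Finset.mul_sum, Finset.mul_sum, ← Finset.sum_sub_distrib,
        ← Finset.sum_add_distrib, ← Finset.sum_add_distrib]
      refine Finset.sum_congr rfl fun j hj => ?_
      have := bt_floor (mem_range.1 hj) h3
      linear_combination (χ j) * this
    rw [e, h2, h6, h33]
    ring
  have hn' : (n : ℤ) ≠ 0 := by exact_mod_cast hn.ne'
  exact (mul_eq_zero.1 key).resolve_left hn'

/-- the sum over one interval -/
theorem sum_half {n : ℕ} {χ : ℤ → ℤ} (H : Chr n χ)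
    (h : ∑ j ∈ range n, χ j * bt j n = 0) :
    ∑ j ∈ (range n).filter (fun j => n < 6 * j ∧ 3 * j < n), χ j = 0 := by
  have e : ∑ j ∈ range n, χ j * bt j n =
      ∑ j ∈ (range n).filter (fun j => n < 6 * j ∧ 3 * j < n), χ j -
        ∑ j ∈ (range n).filter (fun j => 2 * n < 3 * j ∧ 6 * j < 5 * n), χ j := by
    rw [Finset.sum_filter, Finset.sum_filter, ← Finset.sum_sub_distrib]
    refine Finset.sum_congr rfl fun j hj => ?_
    unfold bt
    have c1 : ((n : ℤ) < 6 * (j : ℤ) ∧ 3 * (j : ℤ) < n) ↔ (n < 6 * j ∧ 3 * j < n) := by omega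
    have c2 : (2 * (n : ℤ) < 3 * (j : ℤ) ∧ 6 * (j : ℤ) < 5 * n) ↔
        (2 * n < 3 * j ∧ 6 * j < 5 * n) := by omega
    simp only [c1, c2]
    split_ifs <;> ring
  have e2 : ∑ j ∈ (range n).filter (fun j => 2 * n < 3 * j ∧ 6 * j < 5 * n), χ j =
      -∑ j ∈ (range n).filter (fun j => n < 6 * j ∧ 3 * j < n), χ j := by
    rw [← Finset.sum_neg_distrib]
    refine Finset.sum_bij (fun j _ => n - j) ?_ ?_ ?_ ?_
    · intro j hj
      rw [mem_filter, mem_range] at hj ⊢
      omega
    · intro i hi j hj h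
      rw [mem_filter, mem_range] at hi hj
      omega
    · intro j hj
      rw [mem_filter, mem_range] at hj
      refine ⟨n - j, ?_, by omega⟩
      rw [mem_filter, mem_range]
      omega
    · intro j hj
      rw [mem_filter, mem_range] at hj
      rw [← H.odd]
      refine H.per _ _ ⟨1, ?_⟩
      have : j ≤ n := by omega
      push_cast [this]
      ring
  rw [e, e2] at h
  omega

/-! ### odd discriminants -/

theorem chrO {n : ℕ} (h4 : n % 4 = 3) (h3 : n % 3 = 2) :
    Chr n (fun u => jacobiSym u n) where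
  mul a b := jacobiSym.mul_left a b n
  per a b h := by
    rw [jacobiSym.mod_left, jacobiSym.mod_left b]
    congr 1
    exact Int.emod_eq_emod_iff_emod_sub_eq_zero.2 (Int.emod_eq_zero_of_dvd h)
  odd a := by
    have : jacobiSym (-1) n = -1 := by
      rw [jacobiSym.at_neg_one (Nat.odd_iff.2 (by omega)), ZMod.χ₄_nat_three_mod_four h4]
    rw [show -a = -1 * a by ring, jacobiSym.mul_left, this]
    ring
  one := jacobiSym.one_left n
  zero u h := by
    have : NeZero n := ⟨by omega⟩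
    rw [jacobiSym.eq_zero_iff_not_coprime, Int.gcd_natCast_natCast]
    exact h
  pm u h := by
    refine jacobiSym.eq_one_or_neg_one ?_
    rw [Int.gcd_natCast_natCast]
    exact h
  three := by
    have h1 := jacobiSym.quadratic_reciprocity_three_mod_four (a := 3) (b := n) (by norm_num) h4
    push_cast at h1
    rw [h1, jacobiSym.mod_left]
    have : (n : ℤ) % ((3 : ℕ) : ℤ) = 2 := by omega
    have h2 := jacobiSym.at_two (b := 3) (by decide)
    rw [this, h2]
    decide

theorem sum_btO {n : ℕ} (h4 : n % 4 = 3) (h3 : n % 3 = 2) :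
    ∑ j ∈ range n, jacobiSym j n * bt j n = 0 := by
  have H := chrO h4 h3
  have h2 : Nat.Coprime 2 n := Nat.coprime_two_left.2 (Nat.odd_iff.2 (by omega))
  have h33 : Nat.Coprime 3 n := (Nat.Prime.coprime_iff_not_dvd Nat.prime_three).2 (by omega)
  refine sum_bt (by omega) H (by omega) (T_cop (by omega) H h2) ?_
  rw [T_cop (by omega) H (Nat.Coprime.mul_left h2 h33)]
  congr 1
  push_cast
  rw [show (6 : ℤ) = 2 * 3 by norm_num, H.mul, H.three, mul_one]

theorem t_CHB : S_CHB := by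
  intro n _ h4 h3
  exact sum_half (chrO h4 h3) (sum_btO h4 h3)

/-! ### even discriminants -/

theorem chE_neg_one {n : ℕ} (hE : Ev n) : chE n (-1) = -1 := by
  obtain ⟨k, hsq, hk, hcase, hpf⟩ := ev_odd hE
  have hko : Odd k := Nat.odd_iff.2 hk
  unfold chE
  rw [hpf, jac_sqfree _ hsq, jacobiSym.at_neg_one hko]
  unfold c2
  rcases hcase with ⟨rfl, h1⟩ | rfl
  · rw [if_neg (by norm_num), if_pos (by omega), if_neg (by norm_num),
      ZMod.χ₄_nat_one_mod_four h1]
    norm_num
  · rw [if_neg (by norm_num), if_neg (by omega)]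
    rcases (by omega : k % 4 = 1 ∨ k % 4 = 3) with h | h
    · rw [if_pos (by omega), if_neg (by norm_num), ZMod.χ₄_nat_one_mod_four h]
      norm_num
    · rw [if_neg (by omega), if_pos (by norm_num), ZMod.χ₄_nat_three_mod_four h]
      norm_num

theorem chrE {n : ℕ} (hE : Ev n) (h3 : n % 3 = 2) : Chr n (chE n) where
  mul a b := chE_mul n a b
  per a b h := chE_mod (ev_mod hE) h
  odd a := by
    rw [show -a = -1 * a by ring, chE_mul, chE_neg_one hE]
    ring
  one := chE_one n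
  zero u h := chE_zero (ev_mod hE) h
  pm u h := chE_pm (ev_mod hE) h
  three := by
    have h1 := chE_prime hE Nat.prime_three (by norm_num)
    have hm := ev_mod hE
    push_cast at h1
    rw [h1, jacobiSym.mod_left]
    have : (-((n : ℤ) / 4)) % ((3 : ℕ) : ℤ) = 1 := by omega
    rw [this]
    exact jacobiSym.one_left 3

theorem chE_half {n : ℕ} (hE : Ev n) (j : ℤ) : chE n (j + n / 2) = -chE n j := by
  have hm := ev_mod hE
  unfold chE
  have h1 : c2 n (j + n / 2) = -c2 n j := by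
    unfold c2
    rcases hm with hm | hm
    · rw [if_pos hm, if_pos hm]
      split_ifs <;> omega
    · rw [if_neg (by omega : ¬ n % 16 = 4), if_neg (by omega : ¬ n % 16 = 4)]
      split_ifs <;> omega
  have h2 : ∏ p ∈ n.primeFactors.erase 2, jacobiSym (j + n / 2) p =
      ∏ p ∈ n.primeFactors.erase 2, jacobiSym j p := by
    refine Finset.prod_congr rfl fun q hq => ?_
    obtain ⟨hq2, hq⟩ := Finset.mem_erase.1 hq
    have hqp := Nat.prime_of_mem_primeFactors hq
    have hqn := Nat.dvd_of_mem_primeFactors hq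
    have hq3 : q ∣ n / 2 := by
      have h5 : n = 2 * (n / 2) := by omega
      rw [h5] at hqn
      rcases (Nat.Prime.dvd_mul hqp).1 hqn with h6 | h6
      · exact absurd ((Nat.prime_dvd_prime_iff_eq hqp Nat.prime_two).1 h6) hq2
      · exact h6
    have hq4 : (q : ℤ) ∣ (n : ℤ) / 2 := by
      have : ((n / 2 : ℕ) : ℤ) = (n : ℤ) / 2 := by push_cast; rfl
      rw [← this]
      exact_mod_cast hq3
    rw [jacobiSym.mod_left, jacobiSym.mod_left j]
    congr 1
    obtain ⟨k, hk⟩ := hq4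
    rw [hk, Int.add_mul_emod_self_left]
  rw [h1, h2]
  ring

theorem T_even {n : ℕ} (hE : Ev n) {m : ℕ} (hm : 2 ∣ m) : TT (chE n) n m = 0 := by
  have hn := ev_mod hE
  obtain ⟨k, hk⟩ : ∃ k, n = k + k := ⟨n / 2, by omega⟩
  unfold TT
  conv_lhs => rw [hk, Finset.sum_range_add]
  rw [← hk, ← Finset.sum_add_distrib]
  refine Finset.sum_eq_zero fun j _ => ?_
  have e1 : chE n ((k + j : ℕ) : ℤ) = -chE n j := by
    rw [← chE_half hE]
    congr 1
    push_cast
    omega
  have e2 : m * (k + j) % n = m * j % n := by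
    obtain ⟨t, rfl⟩ := hm
    have : 2 * t * (k + j) = 2 * t * j + n * t := by rw [hk]; ring
    rw [this, Nat.add_mul_mod_self_left]
  rw [e1, e2]
  ring

theorem sum_btE {n : ℕ} (hE : Ev n) (h3 : n % 3 = 2) :
    ∑ j ∈ range n, chE n j * bt j n = 0 := by
  have H := chrE hE h3
  have hn := ev_mod hE
  have h2 : chE n 2 = 0 := by
    have := H.zero 2 (by
      rw [Nat.coprime_two_left]
      intro h
      have := Nat.odd_iff.1 h
      omega)
    exact_mod_cast this
  refine sum_bt (by omega) H (by omega) ?_ ?_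
  · rw [T_even hE (dvd_refl 2), h2, zero_mul]
  · rw [T_even hE (by norm_num), h2, zero_mul]

theorem t_CHBE : S_CHBE := by
  intro n hE h3
  exact sum_half (chrE hE h3) (sum_btE hE h3)

/-! ### the character sum of the symbol -/

/-- transport to units -/
theorem sum_unZ {M : ℕ} [NeZero M] (g : ℕ → ℤ) :
    ∑ a ∈ un M, g a = ∑ u : (ZMod M)ˣ, g (u : ZMod M).val := by
  refine (Finset.sum_bij (fun (u : (ZMod M)ˣ) _ => (u : ZMod M).val) ?_ ?_ ?_ ?_).symm
  · intro u _
    exact Finset.mem_filter.2 ⟨Finset.mem_range.2 (ZMod.val_lt _), ZMod.val_coe_unit_coprime u⟩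
  · intro u _ v _ h
    exact Units.ext (ZMod.val_injective M h)
  · intro a ha
    have ha1 := Finset.mem_range.1 (Finset.mem_filter.1 ha).1
    have ha2 := (Finset.mem_filter.1 ha).2
    refine ⟨ZMod.unitOfCoprime a ha2, Finset.mem_univ _, ?_⟩
    rw [ZMod.coe_unitOfCoprime, ZMod.val_natCast, Nat.mod_eq_of_lt ha1]
  · intro u _
    rfl

theorem sum_symb (hS : S_SYMB) {s : ℚ → ℤ} {a : ℕ → ℤ} (h : Pool.Agent.N974.MF.Symb15 s a)
    {n : ℕ} (hn : 0 < n) (h5 : 5 ∣ n) (h3 : ¬ 3 ∣ n) {χ : ℤ → ℤ} (H : Chr n χ)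
    (hbt : ∑ j ∈ range n, χ j * bt j n = 0) :
    ∑ u ∈ un n, χ u * s ((u : ℚ) / n) = -s (1 / 3) * ∑ u ∈ un n, χ u * FA u n := by
  have : NeZero n := ⟨hn.ne'⟩
  have hc3 : Nat.Coprime 3 n := (Nat.Prime.coprime_iff_not_dvd Nat.prime_three).2 h3
  set w : (ZMod n)ˣ := ZMod.unitOfCoprime 3 hc3 with hw
  have hwv : (w : ZMod n) = 3 := by rw [hw, ZMod.coe_unitOfCoprime]; push_cast; rfl
  -- the values of the symbol
  have hval : ∀ u : (ZMod n)ˣ, s ((((u : ZMod n).val : ℕ) : ℚ) / n) =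
      s (1 / 3) * (-FA (((u : ZMod n).val : ℕ) : ℤ) n +
        bt (((((w * u)⁻¹ : (ZMod n)ˣ) : ZMod n).val : ℕ) : ℤ) n) := by
    intro u
    set j : ℕ := (((w * u)⁻¹ : (ZMod n)ˣ) : ZMod n).val with hj
    have h1 := hS s a h ((u : ZMod n).val : ℤ) n j (by exact_mod_cast hn) (by exact_mod_cast h5)
      (by
        intro h6
        exact h3 (by exact_mod_cast h6))
      (Nat.isCoprime_iff_coprime.2 (ZMod.val_coe_unit_coprime u)) (by positivity)
      (by exact_mod_cast ZMod.val_lt _) (by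
        rw [← ZMod.intCast_zmod_eq_zero_iff_dvd]
        push_cast
        rw [hj, ZMod.natCast_zmod_val, ZMod.natCast_zmod_val, ← hwv]
        have h7 : ((w * u : (ZMod n)ˣ) : ZMod n) * (((w * u)⁻¹ : (ZMod n)ˣ) : ZMod n) = 1 :=
          Units.mul_inv _
        rw [Units.val_mul] at h7
        linear_combination h7)
    rw [← h1]
    push_cast
    rfl
  rw [sum_unZ, sum_unZ]
  have e1 : ∑ u : (ZMod n)ˣ, χ (((u : ZMod n).val : ℕ) : ℤ) *
      s ((((u : ZMod n).val : ℕ) : ℚ) / n) =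
      -s (1 / 3) * ∑ u : (ZMod n)ˣ, χ (((u : ZMod n).val : ℕ) : ℤ) *
        FA (((u : ZMod n).val : ℕ) : ℤ) n + s (1 / 3) *
      ∑ u : (ZMod n)ˣ, χ (((u : ZMod n).val : ℕ) : ℤ) *
        bt (((((w * u)⁻¹ : (ZMod n)ˣ) : ZMod n).val : ℕ) : ℤ) n := by
    rw [Finset.mul_sum, Finset.mul_sum, ← Finset.sum_add_distrib]
    refine Finset.sum_congr rfl fun u _ => ?_
    rw [hval]
    ring
  have e2 : ∑ u : (ZMod n)ˣ, χ (((u : ZMod n).val : ℕ) : ℤ) *
        bt (((((w * u)⁻¹ : (ZMod n)ˣ) : ZMod n).val : ℕ) : ℤ) n =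
      ∑ v : (ZMod n)ˣ, χ (((v : ZMod n).val : ℕ) : ℤ) * bt (((v : ZMod n).val : ℕ) : ℤ) n := by
    refine Finset.sum_bij' (fun u _ => (w * u)⁻¹) (fun v _ => w⁻¹ * v⁻¹) (fun _ _ => mem_univ _)
      (fun _ _ => mem_univ _) ?_ ?_ ?_
    · intro u _
      simp
    · intro v _
      simp
    · intro u _
      congr 1
      -- the character at the inverse
      set v : (ZMod n)ˣ := (w * u)⁻¹ with hv
      have h1 : χ (3 * ((((u : ZMod n).val : ℕ) : ℤ) * (((v : ZMod n).val : ℕ) : ℤ))) = χ 1 := by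
        refine H.per _ _ ?_
        rw [← ZMod.intCast_zmod_eq_zero_iff_dvd]
        push_cast
        rw [ZMod.natCast_zmod_val, ZMod.natCast_zmod_val, ← hwv]
        have h7 : ((w * u : (ZMod n)ˣ) : ZMod n) * (v : ZMod n) = 1 := by
          rw [hv]; exact Units.mul_inv _
        rw [Units.val_mul] at h7
        linear_combination h7
      rw [H.mul, H.mul, H.three, H.one, one_mul] at h1
      have h2 := H.pm _ (ZMod.val_coe_unit_coprime u)
      have h3 := H.pm _ (ZMod.val_coe_unit_coprime v)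
      rcases h2 with h2 | h2 <;> rcases h3 with h3 | h3 <;> rw [h2, h3] at h1 ⊢ <;> omega
  have e3 : ∑ v : (ZMod n)ˣ, χ (((v : ZMod n).val : ℕ) : ℤ) * bt (((v : ZMod n).val : ℕ) : ℤ) n =
      0 := by
    rw [← sum_unZ (fun j => χ j * bt j n), ← hbt]
    refine Finset.sum_subset (Finset.filter_subset _ _) fun j hj hj2 => ?_
    have : ¬ Nat.Coprime j n := fun h => hj2 (Finset.mem_filter.2 ⟨hj, h⟩)
    rw [H.zero j this, zero_mul]
  rw [e1, e2, e3, mul_zero, add_zero]

theorem t_SUMB (hS : S_SYMB) : S_SUMB := by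
  intro s a h
  refine ⟨fun n hn => ?_, fun n hn => ?_⟩
  · obtain ⟨-, h4, h3, h5⟩ := hn
    exact sum_symb hS h (by omega) h5 (by omega) (chrO h4 h3) (sum_btO h4 h3)
  · obtain ⟨hE, h3, h5⟩ := hn
    exact sum_symb hS h (ev_pos hE) h5 (by omega) (chrE hE h3) (sum_btE hE h3)

end Pool.Agent.N975.CHB
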