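import Pool.Agent.N975.Lat15

/-!
Existence of a rectangular period lattice with given real invariants of positive discriminant.
-/

set_option autoImplicit false

open Set Filter Topology

namespace Pool.Agent.N975.LatGen

open Pool.Agent.H285R3.Str Pool.Agent.W520
open Pool.Agent.W646.MT (not_both G_scale scale mem_scale scale_g2 scale_g3 Sq)
open Pool.Agent.N975.Lat15

theorem exists_t (c2 c3 : ℝ) (hΔ : 27 * c3 ^ 2 < c2 ^ 3) : ∃ t : ℝ, 0 < t ∧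
    g2f t ^ 3 * c3 ^ 2 - c2 ^ 3 * g3f t ^ 2 = 0 := by
  have hlim := ((g2f_lim.pow 3).mul_const (c3 ^ 2)).sub
    ((g3f_lim.pow 2).const_mul (c2 ^ 3))
  have hneg : (4 * Real.pi ^ 4 / 3) ^ 3 * c3 ^ 2 -
      c2 ^ 3 * (8 * Real.pi ^ 6 / 27) ^ 2 < 0 := by
    have e : (4 * Real.pi ^ 4 / 3) ^ 3 * c3 ^ 2 -
      c2 ^ 3 * (8 * Real.pi ^ 6 / 27) ^ 2 = Real.pi ^ 12 * (64 / 27 * c3 ^ 2 -
        c2 ^ 3 * (64 / 729)) := by ring
    rw [e]
    have := Real.pi_pos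
    have h2 : (64 : ℝ) / 27 * c3 ^ 2 - c2 ^ 3 * (64 / 729) < 0 := by nlinarith
    exact mul_neg_of_pos_of_neg (by positivity) h2
  obtain ⟨T, hT⟩ := (hlim.eventually (eventually_lt_nhds hneg)).exists_forall_of_atTop
  set T' := max T 1 with hT'
  have hTT := hT T' (le_max_left _ _)
  have hle2 : 1 ≤ T' := le_max_right _ _
  have hc4 := G_cont 4 (by norm_num) T'
  have hc6 := G_cont 6 (by norm_num) T'
  have hg2 : ContinuousOn g2f (Icc 1 T') :=
    (Complex.continuous_re.comp_continuousOn hc4).const_mul 60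
  have hg3 : ContinuousOn g3f (Icc 1 T') :=
    (Complex.continuous_re.comp_continuousOn hc6).const_mul 140
  have hφ : ContinuousOn (fun t => g2f t ^ 3 * c3 ^ 2 - c2 ^ 3 * g3f t ^ 2)
      (Icc 1 T') := by
    fun_prop
  have h3 : g3f 1 = 0 := by
    have h := G6_one
    rw [Lat15.G_eq] at h
    unfold g3f
    rw [h]
    simp
  have h4 : 0 < g2f 1 := by
    have h := G4_one
    rw [Lat15.G_eq] at h
    unfold g2f
    linarith
  have h5 := intermediate_value_Icc' hle2 hφ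
  have h6 : (0 : ℝ) ∈ Icc (g2f T' ^ 3 * c3 ^ 2 - c2 ^ 3 * g3f T' ^ 2)
      (g2f 1 ^ 3 * c3 ^ 2 - c2 ^ 3 * g3f 1 ^ 2) := by
    rw [h3]
    constructor
    · exact hTT.le
    · have : 0 < g2f 1 ^ 3 := pow_pos h4 3
      nlinarith
  obtain ⟨t, ht, hφt⟩ := h5 h6
  exact ⟨t, by have := ht.1; linarith, hφt⟩

/-- **the rectangular lattice with given real invariants of positive discriminant** -/
theorem lat_rect (c2 c3 : ℝ) (h3' : c3 ≠ 0) (hΔ : 27 * c3 ^ 2 < c2 ^ 3) :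
    ∃ (L : PeriodPair) (Op Om : ℝ), 0 < Op ∧ 0 < Om ∧ L.g₂ = c2 ∧ L.g₃ = c3 ∧
      ∀ w : ℂ, w ∈ L.lattice ↔ ∃ a b : ℤ, w = a * Op + b * Om * Complex.I := by
  have h2' : c2 ≠ 0 := by
    rintro rfl
    have : 0 < c3 ^ 2 := by positivity
    nlinarith
  obtain ⟨t, ht, hφ⟩ := exists_t c2 c3 hΔ
  have htn := ht.ne'
  set a := g2f t with ha
  set b := g3f t with hb
  have hg2 := g2_eq t htn
  have hg3 := g3_eq t htn
  rw [← ha] at hg2
  rw [← hb] at hg3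
  have hnb : ¬ (a = 0 ∧ b = 0) := by
    rintro ⟨h1, h2⟩
    apply not_both (Ra_halves (t := t) (ht := htn))
    rw [hg2, hg3, h1, h2]
    simp
  have hb0 : b ≠ 0 := by
    intro h
    apply hnb
    refine ⟨?_, h⟩
    rw [h] at hφ
    have h5 : a ^ 3 * c3 ^ 2 = 0 := by linarith
    have : a ^ 3 = 0 := (mul_eq_zero.1 h5).resolve_right (pow_ne_zero 2 h3')
    exact pow_eq_zero_iff (by norm_num) |>.1 this
  have ha0 : a ≠ 0 := by
    intro h
    apply hnb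
    refine ⟨h, ?_⟩
    rw [h] at hφ
    have h5 : c2 ^ 3 * b ^ 2 = 0 := by linarith
    have : b ^ 2 = 0 := (mul_eq_zero.1 h5).resolve_left (pow_ne_zero 3 h2')
    exact pow_eq_zero_iff (by norm_num) |>.1 this
  set μ : ℝ := (c3 / b) / (c2 / a) with hμ
  have hμ0 : μ ≠ 0 := by
    rw [hμ]
    positivity
  have hcu : c2 ^ 3 * b ^ 2 = c3 ^ 2 * a ^ 3 := by linarith
  have hR : μ * b * c2 = c3 * a := by
    rw [hμ]
    field_simp
  have hb2 : b ^ 2 ≠ 0 := pow_ne_zero _ hb0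
  have hμ2 : μ ^ 2 * a = c2 := by
    have h1 : (b ^ 2 * c2 ^ 2) * (μ ^ 2 * a) = (b ^ 2 * c2 ^ 2) * c2 := by
      linear_combination (μ * b * c2 + c3 * a) * a * hR - hcu
    exact mul_left_cancel₀ (mul_ne_zero hb2 (pow_ne_zero 2 h2')) h1
  have hμ3 : μ ^ 3 * b = c3 := by
    have h1 : (b ^ 2 * c2 ^ 3) * (μ ^ 3 * b) =
        (b ^ 2 * c2 ^ 3) * c3 := by
      linear_combination ((μ * b * c2) ^ 2 + (μ * b * c2) * (c3 * a) +
        (c3 * a) ^ 2) * hR - c3 * hcu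
    exact mul_left_cancel₀ (mul_ne_zero hb2 (pow_ne_zero 3 h2')) h1
  have hμ2' : (μ : ℂ) ^ 2 * a = c2 := by
    rw [← Complex.ofReal_pow, ← Complex.ofReal_mul, hμ2]
  have hμ3' : (μ : ℂ) ^ 3 * b = c3 := by
    rw [← Complex.ofReal_pow, ← Complex.ofReal_mul, hμ3]
  have hμc : (μ : ℂ) ≠ 0 := by exact_mod_cast hμ0
  rcases lt_or_gt_of_ne hμ0 with hneg | hpos
  · obtain ⟨s, hs, hs2⟩ : ∃ s : ℝ, 0 < s ∧ s ^ 2 * (-μ) = 1 := by
      refine ⟨(√(-μ))⁻¹, inv_pos.2 (Real.sqrt_pos.2 (by linarith)), ?_⟩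
      rw [inv_pow, Real.sq_sqrt (by linarith), inv_mul_cancel₀ (by linarith)]
    have hs2' : (s : ℂ) ^ 2 * (-μ) = 1 := by exact_mod_cast hs2
    have hs0 : (s : ℂ) ≠ 0 := by exact_mod_cast hs.ne'
    have hlam : (s : ℂ) * Complex.I ≠ 0 := mul_ne_zero hs0 Complex.I_ne_zero
    have h4 : ((s : ℂ) * Complex.I) ^ 4 * μ ^ 2 = 1 := by
      rw [mul_pow, Complex.I_pow_four]
      linear_combination (-(s : ℂ) ^ 2 * μ + 1) * hs2'
    have h6 : ((s : ℂ) * Complex.I) ^ 6 * μ ^ 3 = 1 := by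
      have e : Complex.I ^ 6 = -1 := by
        calc Complex.I ^ 6 = (Complex.I ^ 2) ^ 3 := by ring
          _ = -1 := by rw [Complex.I_sq]; norm_num
      rw [mul_pow, e]
      linear_combination (((s : ℂ) ^ 2 * (-μ)) ^ 2 + (s : ℂ) ^ 2 * (-μ) + 1) * hs2'
    refine ⟨scale (Ra t htn) ((s : ℂ) * Complex.I) hlam, s * t, s, by positivity,
      by positivity, ?_, ?_, ?_⟩
    · rw [scale_g2, hg2, ← hμ2', inv_eq_of_mul_eq_one_right h4]
    · rw [scale_g3, hg3, ← hμ3', inv_eq_of_mul_eq_one_right h6]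
    · intro w
      rw [PeriodPair.mem_lattice]
      simp only [scale, Ra, ta_eq]
      constructor
      · rintro ⟨m, n, rfl⟩
        refine ⟨-n, m, ?_⟩
        push_cast
        linear_combination ((n : ℂ)) * s * t * Complex.I_sq
      · rintro ⟨x, y, rfl⟩
        refine ⟨y, -x, ?_⟩
        push_cast
        linear_combination -(x : ℂ) * s * t * Complex.I_sq
  · obtain ⟨s, hs, hs2⟩ : ∃ s : ℝ, 0 < s ∧ s ^ 2 * μ = 1 := by
      refine ⟨(√μ)⁻¹, inv_pos.2 (Real.sqrt_pos.2 hpos), ?_⟩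
      rw [inv_pow, Real.sq_sqrt hpos.le, inv_mul_cancel₀ hμ0]
    have hs2' : (s : ℂ) ^ 2 * μ = 1 := by exact_mod_cast hs2
    have hs0 : (s : ℂ) ≠ 0 := by exact_mod_cast hs.ne'
    have h4 : (s : ℂ) ^ 4 * μ ^ 2 = 1 := by
      linear_combination ((s : ℂ) ^ 2 * μ + 1) * hs2'
    have h6 : (s : ℂ) ^ 6 * μ ^ 3 = 1 := by
      linear_combination (((s : ℂ) ^ 2 * μ) ^ 2 + (s : ℂ) ^ 2 * μ + 1) * hs2'
    refine ⟨scale (Ra t htn) (s : ℂ) hs0, s, s * t, by positivity,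
      by positivity, ?_, ?_, ?_⟩
    · rw [scale_g2, hg2, ← hμ2', inv_eq_of_mul_eq_one_right h4]
    · rw [scale_g3, hg3, ← hμ3', inv_eq_of_mul_eq_one_right h6]
    · intro w
      rw [PeriodPair.mem_lattice]
      simp only [scale, Ra, ta_eq]
      constructor
      · rintro ⟨m, n, rfl⟩
        refine ⟨m, n, ?_⟩
        push_cast
        ring
      · rintro ⟨x, y, rfl⟩
        refine ⟨x, y, ?_⟩
        push_cast
        ring

/-- the lattice of the curve 21a1 = [1, 0, 0, -4, -1] -/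
theorem lat21 : ∃ (L : PeriodPair) (Op Om : ℝ), 0 < Op ∧ 0 < Om ∧
    L.g₂ = 193 / 12 ∧ L.g₃ = 575 / 216 ∧
    ∀ w : ℂ, w ∈ L.lattice ↔ ∃ a b : ℤ, w = a * Op + b * Om * Complex.I := by
  obtain ⟨L, Op, Om, h1, h2, h3, h4, h5⟩ :=
    lat_rect (193 / 12) (575 / 216) (by norm_num) (by norm_num)
  exact ⟨L, Op, Om, h1, h2, by rw [h3]; norm_num, by rw [h4]; norm_num, h5⟩

end Pool.Agent.N975.LatGen
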