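import Pool.Agent.N975.T1
import Pool.Agent.N969.P15.DIAG
import Pool.Agent.N973.P15.C1A
import Pool.Agent.N402.P15.C1B
import Pool.Agent.N295.P15.C2
import Pool.Agent.N973.P15.BIL
import Pool.Agent.N575.P15.HE
import Pool.Agent.N871.P15.Fin

/-!
# The rank form of the Birch and Swinnerton-Dyer conjecture for the twists of `X_0(15)` by `-n`,
`n ≡ 23, 47 mod 60`, without ideal class of order four: unconditional form
-/

set_option autoImplicit false

namespace Pool.Agent.N975.T1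

open Pool.Agent.N969.P15

theorem s_DIAG : S_DIAG :=
  t_DIAG Pool.Agent.N973.P15.C.t_C1A Pool.Agent.N402.P15.t_C1B Pool.Agent.N295.P15.t_C2A
    Pool.Agent.N295.P15.t_C2B
    (Pool.Agent.N973.P15.t_BIL1 Pool.Agent.N973.P15.t_REL22 Pool.Agent.N871.P15.s_CP3)
    (Pool.Agent.N973.P15.t_BIL2 Pool.Agent.N973.P15.t_REL22 Pool.Agent.N871.P15.s_CP3)
    Pool.Agent.N575.P15.t_HE

/-- **T1** -/
theorem bsd_T1 {n : ℕ} (hn : Cls0 n) (hQ : Qc n) :
    Pool.Agent.Y687.RankBSD (-12987 * (-(n : ℤ)) ^ 2) (-263466 * (-(n : ℤ)) ^ 3) :=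
  bsd s_DIAG Pool.Agent.N871.P15.s_PAR hn hQ

end Pool.Agent.N975.T1
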