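import Pool.Agent.N975.T2
import Pool.Agent.N973.P15.Defs3

/-!
# The rank form of the Birch and Swinnerton-Dyer conjecture for the twists of `X_0(15)` by the
discriminants divisible by `3`: the glue
-/

set_option autoImplicit false

open Finset

namespace Pool.Agent.N975.T3

open Pool.Agent.N969.P15
open Pool.Agent.N973.P15
open Pool.Agent.N974.MF (Symb15 II exists_symb E15 exists_f_neO)
open Pool.Agent.N975.LfinE (exists_f_neE)
open Pool.Agent.Y687 (RankBSD rankBSD SS rr)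
open Pool.Agent.W97.MT (ap)
open Pool.Agent.N975.T1 (finite_short)

/-- odd discriminants: the rank form from the nonvanishing of the sum of the odd symbols -/
theorem bsdO {n : ℕ} (hsq : Squarefree n) (h4 : n % 4 = 3)
    (hne : ∀ (s : ℚ → ℤ) (a : ℕ → ℤ), Symb15 s a →
      ∑ u ∈ un n, jacobiSym u n * s ((u : ℚ) / n) ≠ 0)
    (hfin : Finite (N875.X15.EQm (-(n : ℤ))).toAffine.Point) :
    RankBSD (-12987 * (-(n : ℤ)) ^ 2) (-263466 * (-(n : ℤ)) ^ 3) := by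
  have hlat := N975.Lat15.s_lat
  obtain ⟨sp, sm, Op, Om, hOp, hOm, hs, -, -, h15⟩ := exists_symb hlat
  have hne := hne sm _ h15
  have hab : (-(n : ℤ)).natAbs = n := by rw [Int.natAbs_neg, Int.natAbs_natCast]
  obtain ⟨f, hf, hfp, hf1⟩ := exists_f_neO hlat (-(n : ℤ))
    (by
      intro x hx
      rw [dvd_neg] at hx
      exact Int.squarefree_natCast.2 hsq x hx)
    (by rw [hab]; omega) (by omega) hOp hOm hs
    (Or.inr (by
      rw [hab]
      exact hne))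
  exact rankBSD hf hfp hf1 (finite_short (by omega) hfin)

/-- even discriminants: the rank form from the nonvanishing of the sum of the odd symbols -/
theorem bsdE {n : ℕ} (hE : Ev n)
    (hne : ∀ (s : ℚ → ℤ) (a : ℕ → ℤ), Symb15 s a →
      ∑ u ∈ un n, chE n u * s ((u : ℚ) / n) ≠ 0)
    (hfin : Finite (N875.X15.EQm (-((n / 4 : ℕ) : ℤ))).toAffine.Point) :
    RankBSD (-12987 * (-((n / 4 : ℕ) : ℤ)) ^ 2) (-263466 * (-((n / 4 : ℕ) : ℤ)) ^ 3) := by
  have hlat := N975.Lat15.s_lat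
  obtain ⟨sp, sm, Op, Om, hOp, hOm, hs, -, -, h15⟩ := exists_symb hlat
  have hne := hne sm _ h15
  have hm := ChE.ev_mod hE
  obtain ⟨f, hf, hfp, hf1⟩ := exists_f_neE hlat hE hOp hOm hs (Or.inr hne)
  exact rankBSD hf hfp hf1 (finite_short (by omega) hfin)

theorem s13_ne {s : ℚ → ℤ} {a : ℕ → ℤ} (h : Symb15 s a) : s (1 / 3) ≠ 0 := by
  have h1 := h.odd3 (1 / 3) (by norm_num) (by norm_num)
  intro h3
  rw [h3] at h1
  exact absurd h1 (by decide)

/-- the sum of the symbols against any function, in terms of the counting function, `3 ∣ n` -/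
theorem sum_symbA (hS : S_SYMA) {s : ℚ → ℤ} {a : ℕ → ℤ} (h : Symb15 s a) {n : ℕ} (hn : n ≠ 0)
    (h3 : 3 ∣ n) (w : ℕ → ℤ) :
    ∑ u ∈ un n, w u * s ((u : ℚ) / n) = -s (1 / 3) * ∑ u ∈ un n, w u * FA u n := by
  rw [Finset.mul_sum]
  refine Finset.sum_congr rfl fun u hu => ?_
  have hu2 : Nat.Coprime u n := (Finset.mem_filter.1 hu).2
  have h1 := hS s a h u n (by exact_mod_cast hn) (by exact_mod_cast h3)
    (Nat.isCoprime_iff_coprime.2 hu2)
  have h2 : s (((u : ℕ) : ℚ) / ((n : ℕ) : ℚ)) = -s (1 / 3) * FA u n := by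
    rw [← h1]
    push_cast
    rfl
  rw [h2]
  ring

theorem ne_of_sq {k t c : ℤ} {e : ℕ} {P : Prop} (hk : k * t = -c ^ 2)
    (hc : ∃ y : ℤ, c = 2 ^ e * y ∧ (Odd y ↔ P)) (hP : P) : t ≠ 0 := by
  rintro rfl
  rw [mul_zero] at hk
  have h3 : c = 0 := pow_eq_zero_iff (by norm_num) |>.1 (neg_eq_zero.1 hk.symm)
  obtain ⟨y, hy, hodd⟩ := hc
  rw [h3] at hy
  have h5 : y = 0 := by
    rcases mul_eq_zero.1 hy.symm with h6 | h6
    · exact absurd h6 (by positivity)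
    · exact h6
  have h7 := hodd.2 hP
  rw [h5] at h7
  exact absurd h7 (by decide)

/-- **T3a**, the glue, odd discriminants, `3 ∣ n`, `5` inert -/
theorem bsd3 (hS : S_SYMA) (hD : S_DIAG3) (hP : S_PARA3) {n : ℕ} (hn : Cl3 n) (h3 : 3 < n)
    (hQ : Qc n) (hfin : Finite (N875.X15.EQm (-(n : ℤ))).toAffine.Point) :
    RankBSD (-12987 * (-(n : ℤ)) ^ 2) (-263466 * (-(n : ℤ)) ^ 3) := by
  refine bsdO hn.1 hn.2.1 (fun s a h => ?_) hfin
  rw [sum_symbA hS h (by omega) hn.2.2.1 (fun u => jacobiSym u n)]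
  exact mul_ne_zero (neg_ne_zero.2 (s13_ne h)) (ne_of_sq (hD n hn) (hP n hn h3) hQ)

/-- **T3a**, the glue, even discriminants, `3 ∣ n`, `5` inert -/
theorem bsd3E (hS : S_SYMA) (hD : S_DIAG3E) (hP : S_PARA3E) {n : ℕ} (hn : Cl3e n)
    (hQ : Qe n) (hfin : Finite (N875.X15.EQm (-((n / 4 : ℕ) : ℤ))).toAffine.Point) :
    RankBSD (-12987 * (-((n / 4 : ℕ) : ℤ)) ^ 2) (-263466 * (-((n / 4 : ℕ) : ℤ)) ^ 3) := by
  refine bsdE hn.1 (fun s a h => ?_) hfin
  rw [sum_symbA hS h (ChE.ev_pos hn.1).ne' hn.2.1 (fun u => chE n u)]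
  exact mul_ne_zero (neg_ne_zero.2 (s13_ne h)) (ne_of_sq (hD n hn) (hP n hn) hQ)

/-- **T3c**, the glue, odd discriminants, `15 ∣ n` -/
theorem bsd15 (hS : S_SYMA) (hD : S_DIAG15) (hP : S_PARA5) {n : ℕ} (hn : Cl15 n)
    (hQ : Qc n) (hfin : Finite (N875.X15.EQm (-(n : ℤ))).toAffine.Point) :
    RankBSD (-12987 * (-(n : ℤ)) ^ 2) (-263466 * (-(n : ℤ)) ^ 3) := by
  refine bsdO hn.1 hn.2.1 (fun s a h => ?_) hfin
  have h4 := hn.2.1
  rw [sum_symbA hS h (by omega) hn.2.2.1 (fun u => jacobiSym u n)]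
  exact mul_ne_zero (neg_ne_zero.2 (s13_ne h)) (ne_of_sq (hD n hn) (hP n (Or.inl hn)) hQ)

/-- **T3c**, the glue, even discriminants, `15 ∣ n` -/
theorem bsd15E (hS : S_SYMA) (hD : S_DIAG15E) (hP : S_PARA5E) {n : ℕ} (hn : Cl15e n)
    (hQ : Qe n) (hfin : Finite (N875.X15.EQm (-((n / 4 : ℕ) : ℤ))).toAffine.Point) :
    RankBSD (-12987 * (-((n / 4 : ℕ) : ℤ)) ^ 2) (-263466 * (-((n / 4 : ℕ) : ℤ)) ^ 3) := by
  refine bsdE hn.1 (fun s a h => ?_) hfin
  rw [sum_symbA hS h (ChE.ev_pos hn.1).ne' hn.2.1 (fun u => chE n u)]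
  exact mul_ne_zero (neg_ne_zero.2 (s13_ne h)) (ne_of_sq (hD n hn) (hP n (Or.inl hn)) hQ)

end Pool.Agent.N975.T3
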