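import Pool.Agent.N975.AllOdd
import Pool.Agent.N973.P15.BILE
import Pool.Agent.N402.P15.C1BE
import Pool.Agent.N295.P15.C2E
import Pool.Agent.N575.P15.HEE
import Pool.Agent.N218.P15.Five
import Pool.Agent.N916.RE.Fin
import Pool.Agent.N969.P15.DIAGE

/-!
# The rank form of the Birch and Swinnerton-Dyer conjecture for all the twists of `X_0(15)` by
negative discriminants `-n` such that `3` is not inert and `5` is not split, without ideal class
of order four, from the pair counts for even norms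
-/

set_option autoImplicit false

namespace Pool.Agent.N975.All

open Pool.Agent.N969.P15
open Pool.Agent.N973.P15
open Pool.Agent.N916.TE (FD Go)
open Pool.Agent.Y687 (RankBSD)

theorem s_DIAGE (h : S_PCE) : S_DIAGE :=
  t_DIAGE N973.P15.C.t_C1AE N402.P15.t_C1BE N295.P15.E.t_C2E
    (t_BIL1E t_REL22 (t_CP3E h)) (t_BIL2E t_REL22 (t_CP3E h)) N575.P15.t_HEE

theorem s_PARE : S_PARE :=
  N218.P15.t_PARE N972.PC15.t_PC N877.P15.t_R N916.RE.t_RE t_REL22 N871.P15.s_CP3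

theorem s_DIAG3E (h : S_PCE) : S_DIAG3E :=
  t_DIAG3E N402.P15.t_C1BE N295.TP.t_C23E h N871.P15.s_REL33 N575.P15.T3.t_HE3E

theorem s_DIAG15E (h : S_PC5E) : S_DIAG15E :=
  N974.P15.t_DIAG15E N402.P15.t_C1BE N295.TP.t_C25E h N871.P15.s_REL33 N575.P15.T3.t_HE3E

theorem s_DIAG5E (h : S_PC5E) : S_DIAG5E :=
  N974.P15.t_DIAG5E N402.P15.t_C1BE N295.TP.t_C25E h (N886.P15.t_CP35E h) N886.P15.t_REL5
    N575.P15.t_HEE

/-- the even discriminants -/
theorem bsd_even (h1 : S_PCE) (h2 : S_PC5E) {n : ℕ} (h : Cl n) (ho : n % 2 = 0) (hG : Go n) :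
    RankBSD (-12987 * mD n ^ 2) (-263466 * mD n ^ 3) :=
  main_even SA.t_SYMA SB.t_SYMB (s_DIAGE h1) s_PARE (s_DIAG3E h1) N218.P15.s_PARA3E
    (s_DIAG15E h2) (s_DIAG5E h2) N218.P15.s_PARA5E h ho hG

/-- all discriminants -/
theorem bsd_all (h1 : S_PCE) (h2 : S_PC5E) {n : ℕ} (h : Cl n) (hG : Go n) :
    RankBSD (-12987 * mD n ^ 2) (-263466 * mD n ^ 3) := by
  rcases Nat.mod_two_eq_zero_or_one n with ho | ho
  · exact bsd_even h1 h2 h ho hG
  · exact bsd_odd h ho hG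

end Pool.Agent.N975.All
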