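import Pool.Agent.N974.MF.Lfin
import Pool.Agent.N974.MF.Symb
import Pool.Agent.N875.X15.Main
import Pool.Agent.N975.Lat15
import Pool.Agent.N975.SymFin
import Pool.Agent.Y687.K2.RankForm

/-!
# The rank form of the Birch and Swinnerton-Dyer conjecture for the twists of `X_0(15)` by `-n`,
`n ≡ 23, 47 mod 60`, without ideal class of order four
-/

set_option autoImplicit false

open Finset

namespace Pool.Agent.N975.T1

open Pool.Agent.N969.P15
open Pool.Agent.N974.MF (Symb15 II exists_symb exists_f_neD E15)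
open Pool.Agent.N975.Sym (SymbM sum_symb_ne)
open Pool.Agent.Y687 (RankBSD rankBSD SS rr)
open Pool.Agent.W97.MT (ap)

/-- the symbol of `974` has the properties used for the counting function -/
theorem symbM_of {s : ℚ → ℤ} {a : ℕ → ℤ} (h : Symb15 s a) : SymbM s where
  per := h.per
  neg := h.neg
  hecke2 := fun x => by
    have h1 := h.hecke 2 Nat.prime_two (by norm_num) x
    rw [h.a2, Finset.sum_range_succ, Finset.sum_range_one] at h1
    push_cast at h1
    rw [add_zero] at h1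
    linarith
  aff := fun {A B C' D} hdet {x c} hcop => by
    have hK : 15 * C' * x + D * c ≠ 0 := by
      intro h0
      -- `c` divides `15 C' x`, so `c` divides `C'`
      have h1 : c ∣ 15 * x * C' := ⟨-D, by linarith⟩
      have h2 : c ∣ C' := hcop.symm.dvd_of_dvd_mul_left h1
      obtain ⟨k, hk⟩ := h2
      rcases eq_or_ne c 0 with hc | hc
      · rw [hc, zero_mul] at hk
        rw [hk] at hdet
        rw [hc] at hcop
        have h3 := isCoprime_zero_right.1 hcop
        have h4 : (15 : ℤ) ∣ 1 := (Dvd.intro _ rfl : (15 : ℤ) ∣ 15 * x).trans h3.dvd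
        norm_num at h4
      · have h5 : 15 * k * x + D = 0 := by
          have : c * (15 * k * x + D) = 0 := by rw [hk] at h0; linarith
          exact (mul_eq_zero.1 this).resolve_left hc
        have h6 : (15 : ℤ) ∣ 1 := ⟨-(A * k * x) - B * C', by
          rw [← hdet]
          linear_combination A * h5⟩
        norm_num at h6
    rcases eq_or_ne c 0 with hc | hc
    · exfalso
      rw [hc] at hcop
      have h3 := isCoprime_zero_right.1 hcop
      have h4 : (15 : ℤ) ∣ 1 := (Dvd.intro _ rfl : (15 : ℤ) ∣ 15 * x).trans h3.dvd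
      norm_num at h4
    · exact h.aff' hdet hc hK

theorem s14_ne {s : ℚ → ℤ} {a : ℕ → ℤ} (h : Symb15 s a) : s (1 / 4) ≠ 0 := by
  have h1 := h.odd3 (1 / 3) (by norm_num) (by norm_num)
  rw [h.s14]
  rintro h2
  have h3 : s (1 / 3) = 0 := by omega
  rw [h3] at h1
  exact absurd h1 (by decide)

/-- the points of the short model -/
theorem finite_short {m : ℤ} (hm : m ≠ 0) (h : Finite (N875.X15.EQm m).toAffine.Point) :
    {q : ℚ × ℚ | q.2 ^ 2 = q.1 ^ 3 + ((-12987 * m ^ 2 : ℤ) : ℚ) * q.1 +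
      ((-263466 * m ^ 3 : ℤ) : ℚ)}.Finite := by
  have hm' : (m : ℚ) ≠ 0 := by exact_mod_cast hm
  have hΔ : (N875.X15.EQm m).toAffine.Δ ≠ 0 := by
    have e : (N875.X15.EQm m).toAffine.Δ = 2 ^ 12 * 3 ^ 4 * 5 ^ 4 * (m : ℚ) ^ 6 := by
      simp only [N875.X15.EQm, N875.X15.Em, WeierstrassCurve.Δ, WeierstrassCurve.b₂,
        WeierstrassCurve.b₄, WeierstrassCurve.b₆, WeierstrassCurve.b₈, WeierstrassCurve.map_a₁,
        WeierstrassCurve.map_a₂, WeierstrassCurve.map_a₃, WeierstrassCurve.map_a₄,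
        WeierstrassCurve.map_a₆, eq_intCast, WeierstrassCurve.toAffine]
      push_cast
      ring
    rw [e]
    positivity
  have key : ∀ q : {q : ℚ × ℚ | q.2 ^ 2 = q.1 ^ 3 + ((-12987 * m ^ 2 : ℤ) : ℚ) * q.1 +
      ((-263466 * m ^ 3 : ℤ) : ℚ)}, (N875.X15.EQm m).toAffine.Nonsingular
      ((q.1.1 + 21 * m) / 9) (q.1.2 / 27) := by
    rintro ⟨⟨X, Y⟩, hq⟩
    simp only [Set.mem_ofPred_eq] at hq
    refine (WeierstrassCurve.Affine.equation_iff_nonsingular_of_Δ_ne_zero hΔ).1 ?_
    rw [WeierstrassCurve.Affine.equation_iff]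
    simp only [N875.X15.Em, WeierstrassCurve.map_a₁, WeierstrassCurve.map_a₂,
      WeierstrassCurve.map_a₃, WeierstrassCurve.map_a₄, WeierstrassCurve.map_a₆, eq_intCast]
    push_cast at hq ⊢
    linear_combination (1 / 729 : ℚ) * hq
  have hsub : Finite {q : ℚ × ℚ | q.2 ^ 2 = q.1 ^ 3 + ((-12987 * m ^ 2 : ℤ) : ℚ) * q.1 +
      ((-263466 * m ^ 3 : ℤ) : ℚ)} := by
    refine Finite.of_injective (β := (N875.X15.EQm m).toAffine.Point)
      (fun q => .some _ _ (key q)) ?_
    rintro ⟨⟨X, Y⟩, hq⟩ ⟨⟨X', Y'⟩, hq'⟩ heq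
    simp only [WeierstrassCurve.Affine.Point.some.injEq] at heq
    obtain ⟨h1, h2⟩ := heq
    have e1 : X = X' := by linarith
    have e2 : Y = Y' := by linarith
    subst e1 e2
    rfl
  exact Set.toFinite _

/-- the two forms of the condition on the class group -/
theorem qc_iff {n : ℕ} (hn : n ≠ 0) : Qc n ↔ N875.X15.Qc n := by
  unfold Qc N875.X15.Qc
  refine forall_congr' fun b => forall_congr' fun c => forall_congr' fun hbc => ?_
  have hb : b ≠ 0 := by rintro rfl; exact hn (by rw [← hbc, zero_mul])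
  have hc : c ≠ 0 := by rintro rfl; exact hn (by rw [← hbc, mul_zero])
  have h1 : (∀ p ∈ c.primeFactors, jacobiSym b p = 1) ↔
      ∀ p : ℕ, p.Prime → p ∣ c → jacobiSym b p = 1 :=
    ⟨fun h p hp hpc => h p (Nat.mem_primeFactors.2 ⟨hp, hpc, hc⟩),
      fun h p hp => h p (Nat.prime_of_mem_primeFactors hp) (Nat.dvd_of_mem_primeFactors hp)⟩
  have h2 : (∀ p ∈ b.primeFactors, jacobiSym c p = 1) ↔
      ∀ p : ℕ, p.Prime → p ∣ b → jacobiSym c p = 1 :=
    ⟨fun h p hp hpc => h p (Nat.mem_primeFactors.2 ⟨hp, hpc, hb⟩),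
      fun h p hp => h p (Nat.prime_of_mem_primeFactors hp) (Nat.dvd_of_mem_primeFactors hp)⟩
  rw [h1, h2]

/-- **Main theorem** (T1) -/
theorem bsd (hD : S_DIAG) (hP : S_PAR) {n : ℕ} (hn : Cls0 n) (hQ : Qc n) :
    RankBSD (-12987 * (-(n : ℤ)) ^ 2) (-263466 * (-(n : ℤ)) ^ 3) := by
  have hlat := N975.Lat15.s_lat
  obtain ⟨sp, sm, Op, Om, hOp, hOm, hs, -, -, h15⟩ := exists_symb hlat
  have hne := sum_symb_ne hD hP (symbM_of h15) (s14_ne h15) hn hQ
  have hn0 : n ≠ 0 := hn.1.ne_zero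
  have h23 : 1 < n := by have := hn.2; omega
  have hcop : Nat.Coprime n 15 := (Sym.cls0_cop hn).symm
  have hab : (-(n : ℤ)).natAbs = n := by rw [Int.natAbs_neg, Int.natAbs_natCast]
  obtain ⟨f, hf, hfp, hf1⟩ := exists_f_neD hlat (-(n : ℤ))
    (by
      intro x hx
      rw [dvd_neg] at hx
      exact Int.squarefree_natCast.2 hn.1 x hx)
    (by rw [hab]; exact h23) (by have := hn.2; omega) (by rw [hab]; exact hcop) hOp hOm hs
    (Or.inr (by
      rw [hab]
      exact hne))
  have hfin := (N875.X15.crit_iff hn.1 hn.2).2 ((qc_iff hn0).1 hQ)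
  exact rankBSD hf hfp hf1 (finite_short (by omega) hfin.1)

end Pool.Agent.N975.T1
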