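import Pool.Agent.N975.SymCore

/-!
# The odd modular symbol of level `15` as a counting function

A function `s` on the rational numbers which is odd, periodic, satisfies the cocycle relation for
`Γ₀(15)` and the Hecke relation at `2` with eigenvalue `-1` is `s (x / M) = s (1 / 4) * Fp x M` for
`M` prime to `15 x`. Adapted from `Y681/Z7/Sym.lean`.
-/

set_option autoImplicit false

open Finset

namespace Pool.Agent.N975.Sym

open Pool.Agent.N969.P15 (Fm Fp cQ)

/-- the relations of the odd symbol of level `15` -/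
structure SymbM (s : ℚ → ℤ) : Prop where
  per : ∀ x, s (x + 1) = s x
  neg : ∀ x, s (-x) = -s x
  hecke2 : ∀ x, -s x = s (2 * x) + s (x / 2) + s ((x + 1) / 2)
  aff : ∀ {A B C' D : ℤ}, A * D - B * (15 * C') = 1 → ∀ {x c : ℤ}, IsCoprime (15 * x) c →
    s (((A * x + B * c : ℤ) : ℚ) / ((15 * C' * x + D * c : ℤ) : ℚ)) =
      s ((x : ℚ) / c) + s ((B : ℚ) / D)

theorem per_nat {s : ℚ → ℤ} (hper : ∀ x, s (x + 1) = s x) (x : ℚ) (n : ℕ) : s (x + n) = s x := by
  induction n with
  | zero => simp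
  | succ n ih =>
    have : x + ((n + 1 : ℕ) : ℚ) = (x + n) + 1 := by push_cast; ring
    rw [this, hper, ih]

theorem per_int {s : ℚ → ℤ} (hper : ∀ x, s (x + 1) = s x) (x : ℚ) (n : ℤ) : s (x + n) = s x := by
  obtain ⟨m, rfl | rfl⟩ := n.eq_nat_or_neg
  · exact_mod_cast per_nat hper x m
  · have := per_nat hper (x + ((-(m : ℤ) : ℤ) : ℚ)) m
    rw [← this]
    congr 1
    push_cast
    ring

variable {s : ℚ → ℤ}

namespace SymbM

theorem zero (H : SymbM s) : s 0 = 0 := by
  have h := H.neg 0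
  rw [neg_zero] at h
  omega

theorem half (H : SymbM s) : s (1 / 2) = 0 := by
  have h1 := H.neg (1 / 2)
  have h2 := H.per (-(1 / 2))
  norm_num at h1 h2
  rw [← h2] at h1
  omega

theorem s18 (H : SymbM s) : s (1 / 8) = 0 := by
  have h1 := H.aff (A := -8) (B := 1) (C' := 1) (D := -2) (by norm_num) (x := 1) (c := 8)
    ⟨-1, 2, by norm_num⟩
  have h2 := H.neg (1 / 2)
  have h3 := H.half
  have h4 := H.zero
  norm_num at h1 h2 h3 h4
  linarith

theorem s38 (H : SymbM s) : s (3 / 8) = s (4 / 11) := by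
  have h1 := H.aff (A := -11) (B := 4) (C' := 2) (D := -11) (by norm_num) (x := 3) (c := 8)
    ⟨-3, 17, by norm_num⟩
  have h2 := H.neg (1 / 2)
  have h3 := H.half
  have h4 := H.neg (4 / 11)
  norm_num at h1 h2 h3 h4
  linarith

theorem s58 (H : SymbM s) : s (5 / 8) = -s (3 / 8) := by
  have h1 := H.neg (3 / 8)
  have h2 := H.per (-(3 / 8))
  norm_num at h1 h2
  rw [h2, h1]

theorem s411 (H : SymbM s) : s (4 / 11) = s (1 / 4) := by
  have h1 := H.hecke2 (1 / 4)
  have h2 := H.half
  have h3 := H.s18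
  have h4 := H.s58
  have h5 := H.s38
  norm_num at h1 h2 h3 h4 h5 ⊢
  linarith

theorem s27 (H : SymbM s) : s (2 / 7) = s (1 / 4) := by
  have h1 := H.aff (A := -4) (B := 1) (C' := 1) (D := -4) (by norm_num) (x := 2) (c := 7)
    ⟨-3, 13, by norm_num⟩
  have h2 := H.neg (1 / 2)
  have h3 := H.half
  have h4 := H.neg (1 / 4)
  norm_num at h1 h2 h3 h4 ⊢
  linarith

theorem s37 (H : SymbM s) : s (3 / 7) = s (1 / 4) - s (1 / 7) := by
  have h1 := H.aff (A := 2) (B := -1) (C' := 1) (D := -7) (by norm_num) (x := 3) (c := 7)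
    ⟨-2, 13, by norm_num⟩
  norm_num at h1 ⊢
  linarith

theorem s114 (H : SymbM s) : s (1 / 14) = 0 := by
  have h1 := H.aff (A := -1) (B := 0) (C' := 1) (D := -1) (by norm_num) (x := 1) (c := 14)
    ⟨1, -1, by norm_num⟩
  have h2 := H.neg 1
  have h3 := H.per 0
  have h4 := H.zero
  norm_num at h1 h2 h3 h4
  linarith

theorem s17 (H : SymbM s) : s (1 / 7) = 0 := by
  have h1 := H.hecke2 (1 / 7)
  have h2 := H.s27
  have h3 := H.s37
  have h4 := H.s114
  have h5 := H.neg (3 / 7)
  have h6 := H.per (-(3 / 7))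
  norm_num at h1 h2 h3 h4 h5 h6 ⊢
  linarith

end SymbM

theorem Fp12 : Fp 1 2 = 0 := by
  classical
  unfold Fp
  apply finsum_eq_zero_of_forall_eq_zero
  rintro ⟨A, B, C⟩
  rw [if_neg]
  intro h
  obtain ⟨h1, h2, h3⟩ := bound' (by norm_num) h
  obtain ⟨⟨h4, ⟨k, h5⟩, h6⟩, h7, h8⟩ := h
  simp only at h4 h5 h6
  omega

theorem Fp14 : Fp 1 4 = 1 := by
  classical
  have hs : Function.support (fun q : ℤ × ℤ × ℤ =>
      if Fm q ∧ 0 < q.1 ∧ q.1 * 1 ^ 2 + q.2.1 * 1 * 4 + q.2.2 * 4 ^ 2 < 0 then cQ q else 0) ⊆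
      (({(15, -8, 1)} : Finset (ℤ × ℤ × ℤ)) : Set (ℤ × ℤ × ℤ)) := by
    rintro ⟨A, B, C⟩ hq
    have h : Fm (A, B, C) ∧ 0 < A ∧ A * 1 ^ 2 + B * 1 * 4 + C * 4 ^ 2 < 0 := by
      by_contra h
      exact hq (if_neg h)
    obtain ⟨h1, h2, h3⟩ := bound' (by norm_num) h
    obtain ⟨⟨h4, ⟨k, h5⟩, h6⟩, h7, h8⟩ := h
    simp only at h4 h5 h6
    subst h5
    have hk : k = 1 := by omega
    subst hk
    have hB : B = -8 := by omega
    subst hB
    have hC : C = 1 := by omega
    subst hC
    simp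
  unfold Fp
  rw [finsum_eq_sum_of_support_subset _ hs, Finset.sum_singleton, if_pos]
  · rfl
  · refine ⟨⟨by norm_num, by norm_num, by norm_num⟩, by norm_num, by norm_num⟩

theorem Fp17 : Fp 1 7 = 0 := by
  classical
  unfold Fp
  apply finsum_eq_zero_of_forall_eq_zero
  rintro ⟨A, B, C⟩
  rw [if_neg]
  intro h
  obtain ⟨h1, h2, h3⟩ := bound' (by norm_num) h
  obtain ⟨⟨h4, ⟨k, h5⟩, h6⟩, h7, h8⟩ := h
  simp only at h4 h5 h6
  subst h5
  have hk : k = 1 ∨ k = 2 ∨ k = 3 := by omega
  rcases hk with rfl | rfl | rfl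
  · omega
  · have hB : B = -8 := by omega
    subst hB
    omega
  · omega

theorem Fp411 : Fp 4 11 = 1 := by
  classical
  have hs : Function.support (fun q : ℤ × ℤ × ℤ =>
      if Fm q ∧ 0 < q.1 ∧ q.1 * 4 ^ 2 + q.2.1 * 4 * 11 + q.2.2 * 11 ^ 2 < 0 then cQ q else 0) ⊆
      (({(30, -22, 4)} : Finset (ℤ × ℤ × ℤ)) : Set (ℤ × ℤ × ℤ)) := by
    rintro ⟨A, B, C⟩ hq
    have h : Fm (A, B, C) ∧ 0 < A ∧ A * 4 ^ 2 + B * 4 * 11 + C * 11 ^ 2 < 0 := by
      by_contra h
      exact hq (if_neg h)
    obtain ⟨h1, h2, h3⟩ := bound' (by norm_num) h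
    obtain ⟨⟨h4, ⟨k, h5⟩, h6⟩, h7, h8⟩ := h
    simp only at h4 h5 h6
    subst h5
    have hk1 : 1 ≤ k := by omega
    have hk2 : k ≤ 8 := by omega
    have hk : k = 2 := by
      clear h1 hq
      interval_cases k <;> omega
    subst hk
    have hB : B = -22 := by omega
    subst hB
    have hC : C = 4 := by omega
    subst hC
    simp
  unfold Fp
  rw [finsum_eq_sum_of_support_subset _ hs, Finset.sum_singleton, if_pos]
  · rfl
  · refine ⟨⟨by norm_num, by norm_num, by norm_num⟩, by norm_num, by norm_num⟩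

/-- the symbol is given by the counting function -/
def Gd (s : ℚ → ℤ) (x M : ℤ) : Prop := 2 * s ((x : ℚ) / M) = -s (1 / 4) * G x M

theorem Gd.neg_neg {x M : ℤ} (h : Gd s x M) : Gd s (-x) (-M) := by
  unfold Gd at h ⊢
  rw [G_neg_neg, ← h]
  push_cast
  rw [neg_div_neg_eq]

theorem Gd.neg (H : SymbM s) {x M : ℤ} (h : Gd s x M) : Gd s (-x) M := by
  unfold Gd at h ⊢
  rw [G_neg]
  push_cast
  rw [neg_div, H.neg]
  linear_combination -h

theorem Gd.add (H : SymbM s) {x M : ℤ} (hM : M ≠ 0) (m : ℤ) (h : Gd s x M) :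
    Gd s (x + m * M) M := by
  unfold Gd at h ⊢
  have hMq : (M : ℚ) ≠ 0 := by exact_mod_cast hM
  have e : (((x + m * M : ℤ) : ℚ) / M) = (x : ℚ) / M + m := by
    push_cast
    field_simp
  rw [e, per_int H.per, G_add, ← h]

theorem Gd.one (H : SymbM s) (x : ℤ) : Gd s x 1 := by
  unfold Gd
  have e : ((x : ℚ) / ((1 : ℤ) : ℚ)) = 0 + (x : ℤ) := by simp
  rw [e, per_int H.per, G_one, H.zero]
  ring

theorem Gd.of_aff (H : SymbM s) {A B D : ℤ} {c : ℕ} (hdet : A * D - B * (15 * c) = 1)
    {x M : ℤ} (hcop : IsCoprime (15 * x) M)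
    (h1 : Gd s (A * x + B * M) (15 * c * x + D * M))
    (h2 : Gd s B D) : Gd s x M := by
  unfold Gd at h1 h2 ⊢
  have h3 := G_aff (a := A) (b := B) (c := 15 * c) (d := D) hdet ⟨c, rfl⟩ (NV_cop hcop)
  have h4 := H.aff hdet hcop
  rw [h3, h4] at h1
  linear_combination h1 - h2

theorem Gd_of {x M : ℤ} (hcop : IsCoprime (15 * x) M) (h : s ((x : ℚ) / M) = s (1 / 4) * Fp x M) :
    Gd s x M := by
  unfold Gd
  rw [h, G_eq (NV_cop hcop)]
  ring

theorem Gd12 (H : SymbM s) : Gd s 1 2 := by
  refine Gd_of ⟨1, -7, by norm_num⟩ ?_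
  have h1 := H.half
  rw [Fp12]
  norm_num at h1 ⊢
  exact h1

theorem Gd14 (H : SymbM s) : Gd s 1 4 := by
  refine Gd_of ⟨-1, 4, by norm_num⟩ ?_
  rw [Fp14]
  norm_num

theorem Gd17 (H : SymbM s) : Gd s 1 7 := by
  refine Gd_of ⟨1, -2, by norm_num⟩ ?_
  have h1 := H.s17
  rw [Fp17]
  norm_num at h1 ⊢
  exact h1

theorem Gd411 (H : SymbM s) : Gd s 4 11 := by
  refine Gd_of ⟨-2, 11, by norm_num⟩ ?_
  have h1 := H.s411
  rw [Fp411]
  norm_num at h1 ⊢
  exact h1

theorem Gd_all (H : SymbM s) (n : ℕ) : ∀ x M : ℤ, M.natAbs = n → M ≠ 0 →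
    IsCoprime (15 * x) M → Gd s x M := by
  induction n using Nat.strong_induction_on with
  | _ n ih =>
    intro x M hn hM0 hcop
    -- reduction to positive denominators
    wlog hMp : 0 < M generalizing x M
    · have h1 := this (-x) (-M) (by rw [Int.natAbs_neg, hn]) (neg_ne_zero.2 hM0)
        (by rw [mul_neg]; exact hcop.neg_neg) (by omega)
      have h2 := h1.neg_neg
      rwa [_root_.neg_neg, _root_.neg_neg] at h2
    rcases eq_or_ne M 1 with rfl | hM1
    · exact Gd.one H x
    -- `15 x` is not divisible by `M`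
    have hnd : ∀ j : ℤ, 15 * x ≠ j * M := by
      intro j hj
      have h3 := hcop.isUnit_of_dvd' (Dvd.intro_left j hj.symm) (dvd_refl M)
      rw [Int.isUnit_iff] at h3
      omega
    -- the general step
    have step : ∀ (y : ℤ), IsCoprime (15 * y) M → 0 < y → 2 * y ≤ M → Gd s y M := by
      intro y hy hy0 hy1
      have hnd' : ∀ j : ℤ, 15 * y ≠ j * M := by
        intro j hj
        have h3 := hy.isUnit_of_dvd' (Dvd.intro_left j hj.symm) (dvd_refl M)
        rw [Int.isUnit_iff] at h3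
        omega
      have main : ∀ (A B D : ℤ) (c : ℕ), A * D - B * (15 * c) = 1 → 0 < c →
          |15 * c * y + D * M| < M → Gd s B D → Gd s y M := by
        intro A B D c hdet hc hlt hBD
        have hcop' : IsCoprime (15 * (A * y + B * M)) (15 * (c : ℤ) * y + D * M) := by
          obtain ⟨u, v, huv⟩ := hy
          have h14 : IsCoprime (15 : ℤ) (15 * (c : ℤ) * y + D * M) := by
            have h1 : IsCoprime (15 : ℤ) (D * M) := by
              refine IsCoprime.mul_right ⟨-(B * c), A, by linear_combination hdet⟩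
                ⟨u * y, v, by linear_combination huv⟩
            have h2 : 15 * (c : ℤ) * y + D * M = D * M + 15 * (c * y) := by ring
            rw [h2]
            exact (IsCoprime.add_mul_left_right_iff).2 h1
          refine IsCoprime.mul_left h14 ?_
          -- Bezout from the inverse matrix
          refine ⟨u * 15 * D - v * (15 * c), -(u * 15 * B) + v * A, ?_⟩
          linear_combination (u * 15 * y + v * M) * hdet + huv
        have hK : 15 * (c : ℤ) * y + D * M ≠ 0 := by
          intro h0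
          rw [h0] at hcop'
          have h3 : IsUnit (15 * (A * y + B * M)) := isCoprime_zero_right.1 hcop'
          rw [Int.isUnit_iff] at h3
          omega
        refine Gd.of_aff H hdet hy ?_ hBD
        refine ih _ ?_ _ _ rfl hK hcop'
        rw [← hn]
        zify
        rw [abs_of_pos hMp]
        exact hlt
      have c1 : 15 * y < 2 * M ∨ (M < 15 * y ∧ 15 * y < 3 * M) ∨
          (3 * M < 15 * y ∧ 15 * y < 5 * M) ∨ (5 * M < 15 * y ∧ 15 * y < 6 * M) ∨
          (6 * M < 15 * y ∧ 15 * y < 8 * M) := by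
        have := hnd' 3
        have := hnd' 5
        have := hnd' 6
        omega
      rcases c1 with c1 | c1 | c1 | c1 | c1
      · refine main (-1) 0 (-1) 1 (by norm_num) one_pos ?_ ?_
        · rw [abs_lt]
          push_cast
          constructor <;> omega
        · have h1 := (Gd.one H 0).neg_neg
          exact h1
      · refine main (-8) 1 (-2) 1 (by norm_num) one_pos ?_ ?_
        · rw [abs_lt]
          push_cast
          constructor <;> omega
        · have h1 := ((Gd12 H).neg H).neg_neg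
          exact h1
      · refine main (-4) 1 (-4) 1 (by norm_num) one_pos ?_ ?_
        · rw [abs_lt]
          push_cast
          constructor <;> omega
        · have h1 := ((Gd14 H).neg H).neg_neg
          exact h1
      · refine main (-11) 4 (-11) 2 (by norm_num) two_pos ?_ ?_
        · rw [abs_lt]
          push_cast
          constructor <;> omega
        · have h1 := ((Gd411 H).neg H).neg_neg
          exact h1
      · refine main 2 (-1) (-7) 1 (by norm_num) one_pos ?_ ?_
        · rw [abs_lt]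
          push_cast
          constructor <;> omega
        · have h1 := (Gd17 H).neg_neg
          exact h1
    -- reduce `x` modulo `M`
    obtain ⟨y, m, hxy, hy0, hyM⟩ : ∃ y m : ℤ, x = y + m * M ∧ 0 ≤ y ∧ y < M :=
      ⟨x % M, x / M, by linear_combination -(Int.emod_add_mul_ediv x M), Int.emod_nonneg _ hM0,
        Int.emod_lt_of_pos _ hMp⟩
    have hcy : IsCoprime (15 * y) M := by
      have h1 : 15 * x = 15 * y + (15 * m) * M := by rw [hxy]; ring
      rw [h1] at hcop
      exact (IsCoprime.add_mul_right_left_iff).1 hcop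
    have hy00 : y ≠ 0 := by
      rintro rfl
      exact hnd (15 * m) (by rw [hxy]; ring)
    rw [hxy]
    refine Gd.add H hM0 m ?_
    rcases le_or_gt (2 * y) M with h1 | h1
    · exact step y hcy (by omega) h1
    · have h2 : IsCoprime (15 * (M - y)) M := by
        have h3 : 15 * (M - y) = -(15 * y) + 15 * M := by ring
        rw [h3]
        exact (IsCoprime.add_mul_right_left_iff).2 hcy.neg_left
      have h3 := step (M - y) h2 (by omega) (by omega)
      have h4 := (h3.neg H).add H hM0 1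
      have e : -(M - y) + 1 * M = y := by ring
      rwa [e] at h4

/-- **SYM15**: the explicit formula for the odd modular symbol of level `15` -/
theorem t_SYM (H : SymbM s) {x M : ℤ} (hM : M ≠ 0) (hcop : IsCoprime (15 * x) M) :
    s ((x : ℚ) / M) = s (1 / 4) * Fp x M := by
  have h1 := Gd_all H M.natAbs x M rfl hM hcop
  unfold Gd at h1
  rw [G_eq (NV_cop hcop)] at h1
  linarith

end Pool.Agent.N975.Sym
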