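import Pool.Agent.N975.All
import Pool.Agent.N975.T1Fin
import Pool.Agent.N973.P15.DIAG3
import Pool.Agent.N974.P15.DIAG15
import Pool.Agent.N974.P15.DIAG5
import Pool.Agent.N973.P15.SymA
import Pool.Agent.N973.P15.SymB
import Pool.Agent.N402.P15.C1B
import Pool.Agent.N295.P15.C3
import Pool.Agent.N575.P15.T3
import Pool.Agent.N575.P15.HE
import Pool.Agent.N886.P15.REL5
import Pool.Agent.N886.P15.CP35
import Pool.Agent.N218.P15.Fin5
import Pool.Agent.N218.P15.Para

/-!
# The rank form of the Birch and Swinnerton-Dyer conjecture for all the twists of `X_0(15)` by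
negative odd discriminants `-n` such that `3` is not inert and `5` is not split, without ideal class
of order four
-/

set_option autoImplicit false

namespace Pool.Agent.N975.All

open Pool.Agent.N969.P15
open Pool.Agent.N973.P15
open Pool.Agent.N916.TE (FD Go)
open Pool.Agent.Y687 (RankBSD)

theorem s_DIAG3 : S_DIAG3 := t_DIAG3 N402.P15.t_C1B N295.TP.t_C23A N295.TP.t_C23B
  N972.PC15.t_PC N871.P15.s_REL33 N575.P15.T3.t_HE3

theorem s_DIAG15 : S_DIAG15 := N974.P15.t_DIAG15 N402.P15.t_C1B N295.TP.t_C25A N295.TP.t_C25B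
  N575.P15.T3.t_PC5' N871.P15.s_REL33 N575.P15.T3.t_HE3

theorem s_DIAG5 : S_DIAG5 := N974.P15.t_DIAG5 N402.P15.t_C1B N295.TP.t_C25A N295.TP.t_C25B
  N575.P15.T3.t_PC5' (N886.P15.t_CP35 N575.P15.T3.t_PC5') N886.P15.t_REL5 N575.P15.t_HE

/-- **the odd discriminants** -/
theorem bsd_odd {n : ℕ} (h : Cl n) (ho : n % 2 = 1) (hG : Go n) :
    RankBSD (-12987 * mD n ^ 2) (-263466 * mD n ^ 3) :=
  main_odd SA.t_SYMA SB.t_SYMB T1.s_DIAG N871.P15.s_PAR s_DIAG3 N218.P15.s_PARA3 s_DIAG15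
    s_DIAG5 N218.P15.s_PARA5 h ho hG

end Pool.Agent.N975.All
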