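import Pool.Agent.N975.T3b
import Pool.Agent.N875.X15.Even
import Pool.Agent.N916.TE.Tg

/-!
# The rank form of the Birch and Swinnerton-Dyer conjecture for all the twists of `X_0(15)` by
negative discriminants `-n` such that `3` is not inert and `5` is not split, without ideal class of
order four: the assembly
-/

set_option autoImplicit false

open Finset

namespace Pool.Agent.N975.All

open Pool.Agent.N969.P15
open Pool.Agent.N973.P15
open Pool.Agent.N916.TE (FD Go)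
open Pool.Agent.Y687 (RankBSD)
open Pool.Agent.N875.X15 (EQm Cls NC nc_of nc_iff_Qe rank_sha_of_nc)
open Pool.Agent.TH841.SH.D (Sha)

/-- the squarefree part of the discriminant `-n` -/
def mD (n : ℕ) : ℤ := if n % 2 = 1 then -(n : ℤ) else -((n / 4 : ℕ) : ℤ)

/-- the classes -/
def Cl (n : ℕ) : Prop := FD n ∧ n % 3 ≠ 1 ∧ (n % 5 = 0 ∨ n % 5 = 2 ∨ n % 5 = 3)

theorem cls_mD {n : ℕ} (h : Cl n) : Cls (mD n) := by
  obtain ⟨h1, h3, h5⟩ := h
  unfold mD
  rcases h1 with ⟨hsq, h4⟩ | ⟨m, rfl, hsq, h4⟩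
  · rw [if_pos (by omega)]
    refine ⟨by omega, ?_, by omega, by omega⟩
    intro x hx
    rw [dvd_neg] at hx
    exact Int.squarefree_natCast.2 hsq x hx
  · rw [if_neg (by omega)]
    have e4 : 4 * m / 4 = m := by omega
    rw [e4]
    refine ⟨by omega, ?_, by omega, by omega⟩
    intro x hx
    rw [dvd_neg] at hx
    exact Int.squarefree_natCast.2 hsq x hx

theorem nc_mD {n : ℕ} (h : Cl n) (hG : Go n) : NC (mD n) := by
  obtain ⟨h1, h3, h5⟩ := h
  obtain ⟨g1, g2⟩ := hG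
  unfold mD
  rcases h1 with ⟨hsq, h4⟩ | hE
  · rw [if_pos (by omega)]
    exact nc_of hsq h4 ((T1.qc_iff (by omega)).1 (g1 (by omega)))
  · have := ChE.ev_mod hE
    rw [if_neg (by omega)]
    exact (nc_iff_Qe hE).2 (g2 (by omega))

/-- finitely many rational points and no element of `2`-power order in the Tate-Shafarevich group -/
theorem finite_sha {n : ℕ} (h : Cl n) (hG : Go n) :
    Finite (EQm (mD n)).toAffine.Point ∧
      ∀ (k : ℕ) (x : Sha (EQm (mD n))), (2 ^ k : ℕ) • x = 0 → x = 0 :=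
  rank_sha_of_nc (cls_mD h) (nc_mD h hG)

/-- the discriminant `-3` -/
theorem cc3 : cc 3 = -6 := by decide +kernel

theorem bsd_three (hS : S_SYMA) (hD : S_DIAG3)
    (hfin : Finite (EQm (-((3 : ℕ) : ℤ))).toAffine.Point) :
    RankBSD (-12987 * (-((3 : ℕ) : ℤ)) ^ 2) (-263466 * (-((3 : ℕ) : ℤ)) ^ 3) := by
  refine T3.bsdO Nat.prime_three.squarefree (by norm_num) (fun s a h => ?_) hfin
  rw [T3.sum_symbA hS h (by norm_num) (dvd_refl 3) (fun u => jacobiSym u 3)]
  refine mul_ne_zero (neg_ne_zero.2 (T3.s13_ne h)) ?_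
  intro h0
  have h1 := hD 3 ⟨Nat.prime_three.squarefree, by norm_num, dvd_refl 3, by norm_num⟩
  rw [h0, mul_zero] at h1
  have h2 : cc ((3 : ℕ) : ℤ) = -6 := by exact_mod_cast cc3
  rw [h2] at h1
  norm_num at h1

/-- the rank form of BSD for the odd discriminants -/
theorem main_odd (sA : S_SYMA) (sB : S_SYMB) (hD : S_DIAG) (hP : S_PAR) (d3 : S_DIAG3)
    (p3 : S_PARA3) (d15 : S_DIAG15) (d5 : S_DIAG5) (p5 : S_PARA5) {n : ℕ} (h : Cl n)
    (ho : n % 2 = 1) (hG : Go n) : RankBSD (-12987 * mD n ^ 2) (-263466 * mD n ^ 3) := by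
  have hfin := (finite_sha h hG).1
  obtain ⟨h1, h3, h5⟩ := h
  obtain ⟨g1, -⟩ := hG
  unfold mD at hfin ⊢
  rcases h1 with ⟨hsq, h4⟩ | hE
  · rw [if_pos ho] at hfin ⊢
    have hQ := g1 ho
    rcases (by omega : n % 3 = 0 ∨ n % 3 = 2) with k3 | k3
    · rcases h5 with k5 | k5
      · exact T3.bsd15 sA d15 p5 ⟨hsq, h4, by omega, by omega⟩ hQ hfin
      · by_cases hn3 : n = 3
        · subst hn3
          exact bsd_three sA d3 hfin
        · exact T3.bsd3 sA d3 p3 ⟨hsq, h4, by omega, k5⟩ (by omega) hQ hfin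
    · rcases h5 with k5 | k5
      · exact T3.bsd5 sB d5 p5 ⟨hsq, h4, k3, by omega⟩ hQ hfin
      · exact T1.bsd hD hP ⟨hsq, by omega⟩ hQ
  · have hm := ChE.ev_mod hE
    omega

/-- the rank form of BSD for the even discriminants -/
theorem main_even (sA : S_SYMA) (sB : S_SYMB) (hD : S_DIAGE) (hP : S_PARE) (d3 : S_DIAG3E)
    (p3 : S_PARA3E) (d15 : S_DIAG15E) (d5 : S_DIAG5E) (p5 : S_PARA5E) {n : ℕ} (h : Cl n)
    (ho : n % 2 = 0) (hG : Go n) : RankBSD (-12987 * mD n ^ 2) (-263466 * mD n ^ 3) := by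
  have hfin := (finite_sha h hG).1
  obtain ⟨h1, h3, h5⟩ := h
  obtain ⟨-, g2⟩ := hG
  unfold mD at hfin ⊢
  rcases h1 with ⟨hsq, h4⟩ | hE
  · omega
  · have hm := ChE.ev_mod hE
    have ho' : ¬ n % 2 = 1 := by omega
    rw [if_neg ho'] at hfin ⊢
    have hQ := g2 ho
    rcases (by omega : n % 3 = 0 ∨ n % 3 = 2) with k3 | k3
    · rcases h5 with k5 | k5
      · exact T3.bsd15E sA d15 p5 ⟨hE, by omega, by omega⟩ hQ hfin
      · exact T3.bsd3E sA d3 p3 ⟨hE, by omega, k5⟩ hQ hfin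
    · rcases h5 with k5 | k5
      · exact T3.bsd5E sB d5 p5 ⟨hE, k3, by omega⟩ hQ hfin
      · exact T2.bsd hD hP ⟨hE, k3, k5⟩ hQ hfin

end Pool.Agent.N975.All
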