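import Pool.Agent.N969.P15.Defs2

/-!
# The quadratic character of the even discriminants `-n` as a primitive Dirichlet character
-/

set_option autoImplicit false

open Finset

namespace Pool.Agent.N975.ChE

open Pool.Agent.N969.P15

/-- primitivity criterion -/
theorem prim_of {N : ℕ} [NeZero N] (χ : DirichletCharacter ℂ N)
    (h : ∀ p : ℕ, p.Prime → p ∣ N → ∃ m : ℕ, m % (N / p) = 1 % (N / p) ∧
      χ (m : ZMod N) ≠ 0 ∧ χ (m : ZMod N) ≠ 1) : χ.IsPrimitive := by
  unfold DirichletCharacter.IsPrimitive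
  by_contra hne
  obtain ⟨k, hk⟩ : χ.conductor ∣ N := DirichletCharacter.conductor_dvd_level _
  have hk1 : k ≠ 1 := by
    rintro rfl
    apply hne
    rw [mul_one] at hk
    exact hk.symm
  obtain ⟨p, hp, hpk⟩ := Nat.exists_prime_and_dvd hk1
  have hpN : p ∣ N := by rw [hk]; exact hpk.mul_left _
  obtain ⟨n, hn1, hn2, hn3⟩ := h p hp hpN
  have hcd2 : χ.conductor ∣ N / p := by
    obtain ⟨j, hj⟩ := hpk
    refine ⟨j, ?_⟩
    have e : N = χ.conductor * j * p := by
      conv_lhs => rw [hk]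
      rw [hj]; ring
    exact Nat.div_eq_of_eq_mul_left hp.pos e
  obtain ⟨hdvd, χ₀, hχ₀⟩ := χ.factorsThrough_conductor
  have hunit : IsUnit (n : ZMod N) := by
    by_contra hu
    exact hn2 (χ.map_nonunit hu)
  have h1 : χ (n : ZMod N) = χ₀ ((n : ZMod N).cast : ZMod χ.conductor) := by
    obtain ⟨u, hu⟩ := hunit
    rw [← hu]
    conv_lhs => rw [hχ₀]
    exact DirichletCharacter.changeLevel_eq_cast_of_dvd χ₀ hdvd u
  have h2 : ((n : ZMod N).cast : ZMod χ.conductor) = 1 := by
    rw [ZMod.cast_natCast hdvd]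
    have h3 : n ≡ 1 [MOD χ.conductor] := Nat.ModEq.of_dvd hcd2 hn1
    have := (ZMod.natCast_eq_natCast_iff n 1 χ.conductor).2 h3
    rw [this]; simp
  rw [h2, map_one] at h1
  exact hn3 h1

/-! ### the factor at `2` -/

theorem c2_eq (n : ℕ) (u : ℤ) : c2 n u =
    if n % 16 = 4 then ZMod.χ₄ (u : ZMod 4)
    else if n % 32 = 8 then ZMod.χ₈' (u : ZMod 8) else ZMod.χ₈ (u : ZMod 8) := by
  unfold c2
  rw [ZMod.χ₄_int_eq_if_mod_four, ZMod.χ₈'_int_eq_if_mod_eight, ZMod.χ₈_int_eq_if_mod_eight]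
  split_ifs <;> rfl

theorem c2_mul (n : ℕ) (u v : ℤ) : c2 n (u * v) = c2 n u * c2 n v := by
  rw [c2_eq, c2_eq, c2_eq]
  split_ifs <;> (push_cast; exact map_mul _ _ _)

theorem c2_one (n : ℕ) : c2 n 1 = 1 := by
  rw [c2_eq]
  split_ifs <;> (push_cast; exact map_one _)

theorem c2_mod {n : ℕ} (hn : n % 16 = 4 ∨ n % 16 = 8) {u v : ℤ} (h : (n : ℤ) ∣ u - v) :
    c2 n u = c2 n v := by
  obtain ⟨k, hk⟩ := h
  unfold c2
  rcases hn with hn | hn
  · have h4 : (4 : ℤ) ∣ u - v := ⟨(n / 4 : ℕ) * k, by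
      rw [hk]
      have : (n : ℤ) = 4 * (n / 4 : ℕ) := by omega
      rw [this]; ring⟩
    have e1 : u % 4 = v % 4 := by omega
    have e2 : u % 2 = v % 2 := by omega
    rw [e1, e2, if_pos hn, if_pos hn]
  · have h8 : (8 : ℤ) ∣ u - v := ⟨(n / 8 : ℕ) * k, by
      rw [hk]
      have : (n : ℤ) = 8 * (n / 8 : ℕ) := by omega
      rw [this]; ring⟩
    have e1 : u % 8 = v % 8 := by omega
    have e2 : u % 2 = v % 2 := by omega
    rw [e1, e2, if_neg (by omega : ¬ n % 16 = 4), if_neg (by omega : ¬ n % 16 = 4)]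

theorem c2_pm (n : ℕ) {u : ℤ} (h : u % 2 = 1) : c2 n u = 1 ∨ c2 n u = -1 := by
  unfold c2
  rw [if_neg (by omega)]
  split_ifs <;> simp

theorem c2_even (n : ℕ) {u : ℤ} (h : u % 2 = 0) : c2 n u = 0 := by
  unfold c2
  rw [if_pos h]

/-! ### the character -/

theorem ev_mod {n : ℕ} (hn : Ev n) : n % 16 = 4 ∨ n % 16 = 8 := by
  obtain ⟨m, rfl, -, h⟩ := hn
  omega

theorem ev_pos {n : ℕ} (hn : Ev n) : 0 < n := by
  have := ev_mod hn
  omega

theorem chE_mul (n : ℕ) (u v : ℤ) : chE n (u * v) = chE n u * chE n v := by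
  unfold chE
  rw [c2_mul]
  have : ∏ p ∈ n.primeFactors.erase 2, jacobiSym (u * v) p =
      (∏ p ∈ n.primeFactors.erase 2, jacobiSym u p) *
        ∏ p ∈ n.primeFactors.erase 2, jacobiSym v p := by
    rw [← Finset.prod_mul_distrib]
    exact Finset.prod_congr rfl fun p _ => jacobiSym.mul_left _ _ _
  rw [this]
  ring

theorem chE_one (n : ℕ) : chE n 1 = 1 := by
  unfold chE
  rw [c2_one, one_mul]
  exact Finset.prod_eq_one fun p _ => jacobiSym.one_left _

theorem chE_mod {n : ℕ} (hn : n % 16 = 4 ∨ n % 16 = 8) {u v : ℤ} (h : (n : ℤ) ∣ u - v) :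
    chE n u = chE n v := by
  unfold chE
  rw [c2_mod hn h]
  congr 1
  refine Finset.prod_congr rfl fun p hp => ?_
  have hpn : (p : ℤ) ∣ n := by
    exact_mod_cast Nat.dvd_of_mem_primeFactors (Finset.mem_of_mem_erase hp)
  rw [jacobiSym.mod_left, jacobiSym.mod_left v]
  congr 1
  exact Int.emod_eq_emod_iff_emod_sub_eq_zero.2 (Int.emod_eq_zero_of_dvd (hpn.trans h))

theorem chE_zero {n : ℕ} (hn : n % 16 = 4 ∨ n % 16 = 8) {u : ℕ} (h : ¬ Nat.Coprime u n) :
    chE n u = 0 := by
  rw [Nat.Prime.not_coprime_iff_dvd] at h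
  obtain ⟨p, hp, hpu, hpn⟩ := h
  unfold chE
  by_cases h2 : p = 2
  · subst h2
    rw [c2_even n (by omega), zero_mul]
  · have hmem : p ∈ n.primeFactors.erase 2 :=
      Finset.mem_erase.2 ⟨h2, Nat.mem_primeFactors.2 ⟨hp, hpn, by omega⟩⟩
    have : ∏ p ∈ n.primeFactors.erase 2, jacobiSym (u : ℤ) p = 0 := by
      refine Finset.prod_eq_zero hmem ?_
      have : NeZero p := ⟨hp.ne_zero⟩
      rw [jacobiSym.eq_zero_iff_not_coprime, Int.gcd_natCast_natCast, Nat.gcd_eq_right hpu]
      exact hp.one_lt.ne'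
    rw [this, mul_zero]

theorem chE_pm {n : ℕ} (hn : n % 16 = 4 ∨ n % 16 = 8) {u : ℕ} (h : Nat.Coprime u n) :
    chE n u = 1 ∨ chE n u = -1 := by
  have hodd : (u : ℤ) % 2 = 1 := by
    have h2 : Nat.Coprime u 2 := h.coprime_dvd_right (by omega)
    have := Nat.coprime_two_right.1 h2
    have := Nat.odd_iff.1 this
    omega
  have key : ∀ S : Finset ℕ, (∀ p ∈ S, Nat.Coprime u p) →
      (∏ p ∈ S, jacobiSym (u : ℤ) p = 1 ∨ ∏ p ∈ S, jacobiSym (u : ℤ) p = -1) := by
    intro S
    classical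
    induction S using Finset.induction_on with
    | empty => intro _; left; simp
    | insert a S ha ih =>
      intro hS
      rw [Finset.prod_insert ha]
      have h1 := jacobiSym.eq_one_or_neg_one (a := (u : ℤ)) (b := a) (by
        rw [Int.gcd_natCast_natCast]
        exact hS a (Finset.mem_insert_self _ _))
      have h2 := ih fun p hp => hS p (Finset.mem_insert_of_mem hp)
      rcases h1 with h1 | h1 <;> rcases h2 with h2 | h2 <;> rw [h1, h2] <;> simp
  have h1 := c2_pm n hodd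
  have h2 := key (n.primeFactors.erase 2) fun p hp =>
    h.coprime_dvd_right (Nat.dvd_of_mem_primeFactors (Finset.mem_of_mem_erase hp))
  unfold chE
  rcases h1 with h1 | h1 <;> rcases h2 with h2 | h2 <;> rw [h1, h2] <;> simp

/-- the character -/
noncomputable def chi (n : ℕ) [NeZero n] (hn : n % 16 = 4 ∨ n % 16 = 8) : DirichletCharacter ℂ n where
  toFun a := ((chE n (a.val : ℤ) : ℤ) : ℂ)
  map_one' := by
    have h1 : (1 : ZMod n).val = 1 % n := ZMod.val_one_eq_one_mod n
    have : 1 % n = 1 := Nat.mod_eq_of_lt (by omega)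
    rw [h1, this]
    push_cast
    rw [chE_one]
    norm_num
  map_mul' a b := by
    rw [← Int.cast_mul, ← chE_mul]
    congr 1
    refine chE_mod hn ?_
    rw [ZMod.val_mul]
    push_cast
    exact Int.ModEq.dvd ((Int.mod_modEq _ _).symm.symm).symm
  map_nonunit' a ha := by
    have h1 : ¬ Nat.Coprime a.val n := by
      intro h2
      apply ha
      have := (ZMod.isUnit_iff_coprime a.val n).2 h2
      rwa [ZMod.natCast_zmod_val] at this
    rw [chE_zero hn h1]
    norm_num

theorem chi_nat (n : ℕ) [NeZero n] (hn : n % 16 = 4 ∨ n % 16 = 8) (m : ℕ) :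
    chi n hn (m : ZMod n) = ((chE n m : ℤ) : ℂ) := by
  change ((chE n (((m : ZMod n).val : ℕ) : ℤ) : ℤ) : ℂ) = _
  rw [ZMod.val_natCast]
  congr 1
  refine chE_mod hn ?_
  push_cast
  exact Int.ModEq.dvd (Int.mod_modEq _ _).symm

theorem chi_inv (n : ℕ) [NeZero n] (hn : n % 16 = 4 ∨ n % 16 = 8) : (chi n hn)⁻¹ = chi n hn := by
  rw [inv_eq_iff_mul_eq_one]
  ext a
  rw [MulChar.mul_apply, MulChar.one_apply_coe]
  have h : ((a : ZMod n).val : ZMod n) = a := ZMod.natCast_zmod_val _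
  rw [← h, chi_nat]
  have hco : Nat.Coprime (a : ZMod n).val n := ZMod.val_coe_unit_coprime a
  rcases chE_pm hn hco with h1 | h1
  · rw [h1]; norm_num
  · rw [h1]; norm_num

theorem exists_neg {n : ℕ} (hE : Ev n) {p : ℕ} (hp : p.Prime) (hpn : p ∣ n) :
    ∃ a : ℕ, a % (n / p) = 1 % (n / p) ∧ chE n a = -1 := by
  have hn := ev_mod hE
  obtain ⟨m0, hnm, hsq, h4⟩ := hE
  by_cases h2 : p = 2
  · subst h2
    refine ⟨1 + n / 2, by rw [Nat.add_mod_right], ?_⟩
    unfold chE
    have h1 : c2 n ((1 + n / 2 : ℕ) : ℤ) = -1 := by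
      unfold c2
      rcases hn with hn | hn
      · rw [if_neg (by omega), if_pos hn, if_neg (by omega)]
      · rw [if_neg (by omega), if_neg (by omega)]
        split_ifs <;> omega
    rw [h1]
    have h3 : ∏ q ∈ n.primeFactors.erase 2, jacobiSym ((1 + n / 2 : ℕ) : ℤ) q = 1 := by
      refine Finset.prod_eq_one fun q hq => ?_
      obtain ⟨hq2, hq⟩ := Finset.mem_erase.1 hq
      have hqp := Nat.prime_of_mem_primeFactors hq
      have hqn := Nat.dvd_of_mem_primeFactors hq
      have hq3 : q ∣ n / 2 := by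
        have h5 : n = 2 * (n / 2) := by omega
        rw [h5] at hqn
        rcases (Nat.Prime.dvd_mul hqp).1 hqn with h6 | h6
        · exact absurd ((Nat.prime_dvd_prime_iff_eq hqp Nat.prime_two).1 h6) hq2
        · exact h6
      obtain ⟨k, hk⟩ := hq3
      rw [jacobiSym.mod_left, hk]
      have : ((1 + q * k : ℕ) : ℤ) % q = 1 % q := by
        push_cast
        rw [Int.add_mul_emod_self_left]
      rw [this, ← jacobiSym.mod_left, jacobiSym.one_left]
    rw [h3]
    norm_num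
  · -- an odd prime
    obtain ⟨m, hm⟩ := hpn
    have hm0 : 0 < m := Nat.pos_of_ne_zero (by rintro rfl; omega)
    have hpm : ¬ p ∣ m := by
      intro h5
      have h6 : p * p ∣ 4 * m0 := by
        rw [← hnm, hm]
        exact Nat.mul_dvd_mul_left p h5
      have h7 : Nat.Coprime (p * p) 4 := by
        have : Nat.Coprime p 2 := (Nat.coprime_primes hp Nat.prime_two).2 h2
        have h8 : Nat.Coprime (p * p) 2 := Nat.Coprime.mul_left this this
        exact Nat.Coprime.mul_right h8 h8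
      have h9 := h7.dvd_of_dvd_mul_left h6
      exact hp.one_lt.ne' (Nat.isUnit_iff.1 (hsq p h9))
    have hcop : Nat.Coprime p m := (Nat.Prime.coprime_iff_not_dvd hp).2 hpm
    have : Fact p.Prime := ⟨hp⟩
    obtain ⟨g, hg⟩ : ∃ g : ℕ, jacobiSym (g : ℤ) p = -1 := by
      have hchar : ringChar (ZMod p) ≠ 2 := by
        rw [ZMod.ringChar_zmod_n]; exact h2
      obtain ⟨a, ha⟩ := quadraticChar_exists_neg_one hchar
      refine ⟨a.val, ?_⟩
      rw [← jacobiSym.legendreSym.to_jacobiSym, legendreSym]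
      simpa using ha
    obtain ⟨a, ha1, ha2⟩ := Nat.chineseRemainder hcop.symm 1 g
    have e0 : n / p = m := by rw [hm, Nat.mul_div_cancel_left _ hp.pos]
    refine ⟨a, by rw [e0]; exact ha1, ?_⟩
    unfold chE
    have hma : ∀ k : ℕ, k ∣ m → (a : ℤ) % k = 1 % k := by
      intro k hk
      have := Nat.ModEq.of_dvd hk ha1
      exact_mod_cast this
    have hm8 : n % 16 = 4 ∧ 4 ∣ m ∨ n % 16 = 8 ∧ 8 ∣ m := by
      have hpo : p % 2 = 1 := Nat.odd_iff.1 (hp.odd_of_ne_two h2)
      rcases hn with hn | hn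
      · refine Or.inl ⟨hn, ?_⟩
        have h5 : Nat.Coprime 4 p := by
          have : Nat.Coprime 2 p := ((Nat.coprime_primes hp Nat.prime_two).2 h2).symm
          exact Nat.Coprime.mul_left this this
        exact h5.dvd_of_dvd_mul_left (by rw [← hm]; omega)
      · refine Or.inr ⟨hn, ?_⟩
        have h5 : Nat.Coprime 8 p := by
          have : Nat.Coprime 2 p := ((Nat.coprime_primes hp Nat.prime_two).2 h2).symm
          exact Nat.Coprime.mul_left (Nat.Coprime.mul_left this this) this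
        exact h5.dvd_of_dvd_mul_left (by rw [← hm]; omega)
    have h1 : c2 n (a : ℤ) = 1 := by
      unfold c2
      rcases hm8 with ⟨k1, k2⟩ | ⟨k1, k2⟩
      · have := hma 4 k2
        push_cast at this
        rw [if_neg (by omega), if_pos k1, if_pos (by omega)]
      · have := hma 8 k2
        push_cast at this
        rw [if_neg (by omega), if_neg (by omega)]
        split_ifs <;> first | rfl | omega
    have hmem : p ∈ n.primeFactors.erase 2 :=
      Finset.mem_erase.2 ⟨h2, Nat.mem_primeFactors.2 ⟨hp, ⟨m, hm⟩, by omega⟩⟩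
    rw [h1, one_mul, ← Finset.mul_prod_erase _ _ hmem]
    have h3 : jacobiSym (a : ℤ) p = -1 := by
      rw [jacobiSym.mod_left]
      have h4 : ((a : ℤ) % p) = ((g : ℤ) % p) := by exact_mod_cast ha2
      rw [h4, ← jacobiSym.mod_left, hg]
    rw [h3]
    have h5 : ∏ q ∈ (n.primeFactors.erase 2).erase p, jacobiSym (a : ℤ) q = 1 := by
      refine Finset.prod_eq_one fun q hq => ?_
      obtain ⟨hqp, hq⟩ := Finset.mem_erase.1 hq
      obtain ⟨hq2, hq⟩ := Finset.mem_erase.1 hq
      have hqpr := Nat.prime_of_mem_primeFactors hq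
      have hqn := Nat.dvd_of_mem_primeFactors hq
      have hqm : q ∣ m := by
        rw [hm] at hqn
        rcases (Nat.Prime.dvd_mul hqpr).1 hqn with h6 | h6
        · exact absurd ((Nat.prime_dvd_prime_iff_eq hqpr hp).1 h6) hqp
        · exact h6
      rw [jacobiSym.mod_left, hma q hqm, ← jacobiSym.mod_left, jacobiSym.one_left]
    rw [h5]
    norm_num

theorem chi_primitive {n : ℕ} [NeZero n] (hE : Ev n) : (chi n (ev_mod hE)).IsPrimitive := by
  refine prim_of _ fun p hp hpn => ?_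
  obtain ⟨a, ha1, ha2⟩ := exists_neg hE hp hpn
  refine ⟨a, ha1, ?_, ?_⟩ <;> rw [chi_nat, ha2] <;> norm_num

end Pool.Agent.N975.ChE
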