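import Pool.Agent.N975.T1
import Pool.Agent.N975.LfinE

/-!
# The rank form of the Birch and Swinnerton-Dyer conjecture for the twists of `X_0(15)` by the even
discriminants `-n`, `n = 4 m`, without ideal class of order four
-/

set_option autoImplicit false

open Finset

namespace Pool.Agent.N975.T2

open Pool.Agent.N969.P15
open Pool.Agent.N974.MF (Symb15 II exists_symb E15)
open Pool.Agent.N975.Sym (SymbM t_SYM cop15)
open Pool.Agent.N975.LfinE (exists_f_neE)
open Pool.Agent.Y687 (RankBSD rankBSD)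
open Pool.Agent.W97.MT (ap)
open Pool.Agent.N975.T1 (symbM_of s14_ne finite_short)

theorem cls0e_cop {n : ℕ} (hn : Cls0e n) : Nat.Coprime 15 n := by
  obtain ⟨-, h3, h5⟩ := hn
  rw [show (15 : ℕ) = 3 * 5 by norm_num]
  refine Nat.Coprime.mul_left ?_ ?_
  · rw [Nat.Prime.coprime_iff_not_dvd Nat.prime_three]
    omega
  · rw [Nat.Prime.coprime_iff_not_dvd (by norm_num)]
    omega

/-- the sum of the symbols against any function, in terms of the counting function -/
theorem sum_symb {s : ℚ → ℤ} (H : SymbM s) {n : ℕ} (hn : n ≠ 0) (h15 : Nat.Coprime 15 n)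
    (w : ℕ → ℤ) :
    ∑ u ∈ un n, w u * s ((u : ℚ) / n) = s (1 / 4) * ∑ u ∈ un n, w u * Fp u n := by
  rw [Finset.mul_sum]
  refine Finset.sum_congr rfl fun u hu => ?_
  have hu2 : Nat.Coprime u n := (Finset.mem_filter.1 hu).2
  have h1 := t_SYM H (x := u) (M := n) (by exact_mod_cast hn) (cop15 h15 hu2)
  have h2 : s (((u : ℕ) : ℚ) / ((n : ℕ) : ℚ)) = s (1 / 4) * Fp u n := by
    rw [← h1]
    push_cast
    rfl
  rw [h2]
  ring

/-- the character sum of the symbol does not vanish if there is no ideal class of order four -/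
theorem sum_symb_ne (hD : S_DIAGE) (hP : S_PARE) {s : ℚ → ℤ} (H : SymbM s) (h4 : s (1 / 4) ≠ 0)
    {n : ℕ} (hn : Cls0e n) (hQ : Qe n) : ∑ u ∈ un n, chE n u * s ((u : ℚ) / n) ≠ 0 := by
  intro h0
  have hn0 : n ≠ 0 := (ChE.ev_pos hn.1).ne'
  rw [sum_symb H hn0 (cls0e_cop hn) (fun u => chE n u)] at h0
  have h1 := hD n hn
  have h2 : ∑ u ∈ un n, chE n u * Fp u n = 0 := (mul_eq_zero.1 h0).resolve_left h4
  rw [h2, mul_zero] at h1
  have h3 : cc n = 0 := pow_eq_zero_iff (by norm_num) |>.1 h1.symm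
  obtain ⟨y, hy, hodd⟩ := hP n hn
  rw [h3] at hy
  have h5 : y = 0 := by
    rcases mul_eq_zero.1 hy.symm with h6 | h6
    · exact absurd h6 (by positivity)
    · exact h6
  have h7 := hodd.2 hQ
  rw [h5] at h7
  exact absurd h7 (by decide)

/-- **T2**, the glue -/
theorem bsd (hD : S_DIAGE) (hP : S_PARE) {n : ℕ} (hn : Cls0e n) (hQ : Qe n)
    (hfin : Finite (N875.X15.EQm (-((n / 4 : ℕ) : ℤ))).toAffine.Point) :
    RankBSD (-12987 * (-((n / 4 : ℕ) : ℤ)) ^ 2) (-263466 * (-((n / 4 : ℕ) : ℤ)) ^ 3) := by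
  have hlat := N975.Lat15.s_lat
  obtain ⟨sp, sm, Op, Om, hOp, hOm, hs, -, -, h15⟩ := exists_symb hlat
  have hne := sum_symb_ne hD hP (symbM_of h15) (s14_ne h15) hn hQ
  have hm := ChE.ev_mod hn.1
  obtain ⟨f, hf, hfp, hf1⟩ := exists_f_neE hlat hn.1 hOp hOm hs (Or.inr hne)
  exact rankBSD hf hfp hf1 (finite_short (by omega) hfin)

end Pool.Agent.N975.T2
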