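import Pool.Agent.N975.T3
import Pool.Agent.N975.CHB

/-!
# The rank form of the Birch and Swinnerton-Dyer conjecture for the twists of `X_0(15)` by the
discriminants divisible by `5` and not by `3`: the glue
-/

set_option autoImplicit false

open Finset

namespace Pool.Agent.N975.T3

open Pool.Agent.N969.P15
open Pool.Agent.N973.P15
open Pool.Agent.N974.MF (Symb15)
open Pool.Agent.Y687 (RankBSD)

theorem ne_of_sq2 {k t c : ℤ} {e : ℕ} {P : Prop} (hk : k * t = -(2 * c ^ 2))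
    (hc : ∃ y : ℤ, c = 2 ^ e * y ∧ (Odd y ↔ P)) (hP : P) : t ≠ 0 := by
  rintro rfl
  have h3 : c ^ 2 = 0 := by linarith
  refine ne_of_sq (k := 1) (t := 0) ?_ hc hP rfl
  rw [h3]
  norm_num

/-- **T3b**, the glue, odd discriminants, `5 ∣ n`, `3` split -/
theorem bsd5 (hS : S_SYMB) (hD : S_DIAG5) (hP : S_PARA5) {n : ℕ} (hn : Cl5 n)
    (hQ : Qc n) (hfin : Finite (N875.X15.EQm (-(n : ℤ))).toAffine.Point) :
    RankBSD (-12987 * (-(n : ℤ)) ^ 2) (-263466 * (-(n : ℤ)) ^ 3) := by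
  refine bsdO hn.1 hn.2.1 (fun s a h => ?_) hfin
  rw [(CHB.t_SUMB hS s a h).1 n hn]
  exact mul_ne_zero (neg_ne_zero.2 (s13_ne h)) (ne_of_sq2 (hD n hn) (hP n (Or.inr hn)) hQ)

/-- **T3b**, the glue, even discriminants, `5 ∣ n`, `3` split -/
theorem bsd5E (hS : S_SYMB) (hD : S_DIAG5E) (hP : S_PARA5E) {n : ℕ} (hn : Cl5e n)
    (hQ : Qe n) (hfin : Finite (N875.X15.EQm (-((n / 4 : ℕ) : ℤ))).toAffine.Point) :
    RankBSD (-12987 * (-((n / 4 : ℕ) : ℤ)) ^ 2) (-263466 * (-((n / 4 : ℕ) : ℤ)) ^ 3) := by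
  refine bsdE hn.1 (fun s a h => ?_) hfin
  rw [(CHB.t_SUMB hS s a h).2 n hn]
  exact mul_ne_zero (neg_ne_zero.2 (s13_ne h)) (ne_of_sq2 (hD n hn) (hP n (Or.inr hn)) hQ)

end Pool.Agent.N975.T3
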